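import Mathlib
import Pool.Graph.R_seed8.H429R2.Auto
import Pool.Graph.R_seed8.TH461.AL.Nl

/-!
Far cells and words: from a far cell of a multiple, every word is reached by a bounded number of
steps to the upper right and to the upper left.
-/

set_option autoImplicit false

open Finset Filter Topology

namespace Pool.Agent.H590.CC

open Pool.Agent.H429R2.Auto
open Pool.Agent.TH461.AL (J7)
open Pool.Agent.TH461.AL.Nl (UW isOpen_UW nonempty_UW mem_UW word_of_mem)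
open Pool.Agent.H706R2 (dZ)

/-- The configuration `x` shows the word `w` starting at the cell `p`. -/
def ShowsAt (x : ℤ → Fin 6) (w : List (Fin 6)) (p : ℤ) : Prop :=
  ∀ (i : ℕ) (h : i < w.length), x (p + i) = w[i]

/-- the number coding the word -/
def code (w : List (Fin 6)) : ℕ :=
  ∑ r ∈ Finset.range w.length, ((w.getD (w.length - 1 - r) 0 : Fin 6) : ℕ) * 6 ^ r

theorem code_lt (w : List (Fin 6)) : code w < 6 ^ w.length :=
  sum_lt w.length fun r => w.getD (w.length - 1 - r) 0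

theorem shows_of {x : Conf} {β : ℝ} (hβ : 0 ≤ β) (hx : Rep x β) (w : List (Fin 6)) (j : ℤ) (n : ℕ)
    (h : ⌊(6 : ℝ) ^ (j + w.length - 1) * ((3 / 2) ^ n * β)⌋₊ % 6 ^ w.length = code w) :
    ShowsAt (F^[n] x) w j := by
  intro i hi
  have h1 := letter (rep_iter hβ hx n) j w.length (w.length - 1 - i) (by omega)
  rw [h] at h1
  have h2 := digits_sum w.length (fun r => w.getD (w.length - 1 - r) 0) (w.length - 1 - i) (by omega)
  have e1 : j + (w.length : ℤ) - 1 - ((w.length - 1 - i : ℕ) : ℤ) = j + i := by omega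
  rw [e1] at h1
  have e2 : w.length - 1 - (w.length - 1 - i) = i := by omega
  unfold code at h1
  rw [h2] at h1
  simp only [e2] at h1
  have h3 : w.getD i 0 = w[i] := by
    rw [List.getD_eq_getElem?_getD, List.getElem?_eq_getElem hi]; rfl
  rw [h3] at h1
  exact Fin.ext h1

/-- the value in the cell `(n, a)` -/
noncomputable def V (β : ℝ) (n : ℕ) (a : ℤ) : ℝ := β * (3 / 2) ^ n * (6 : ℝ) ^ a

/-- **Hitting words from far cells.** -/
theorem hit (w : List (Fin 6)) {d : ℕ} (hd : 1 ≤ d) {r : ℝ} (hr : 0 < r) : ∃ N : ℕ, 1 ≤ N ∧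
    ∃ T : ℕ, 1 ≤ T ∧
    ∀ (x : Conf) (β : ℝ), 0 ≤ β → Rep x β → ∀ (n : ℕ) (a : ℤ), r ≤ dZ (N * V β n a) →
      ∃ t k : ℕ, t ≤ T ∧ k ≤ T ∧ ShowsAt (F^[n + d * k + d * t] x) w (a + d * k - d * t + 2) := by
  have h9 : 2 ≤ 9 ^ d := by
    calc 2 ≤ 9 ^ 1 := by norm_num
      _ ≤ 9 ^ d := Nat.pow_le_pow_right (by norm_num) hd
  have h4 : 2 ≤ 4 ^ d := by
    calc 2 ≤ 4 ^ 1 := by norm_num
      _ ≤ 4 ^ d := Nat.pow_le_pow_right (by norm_num) hd
  obtain ⟨N, hN, T1, hT1⟩ := Pool.Agent.TH461.AL.Wd.word (9 ^ d) (4 ^ d) h9 h4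
    (Nat.Coprime.pow d d (by norm_num)) r hr (UW 6 w.length (code w)) (isOpen_UW _ _ _)
    (nonempty_UW (by norm_num) _ _) (1 / 2) (by norm_num)
  set D : ℕ := ⌈Real.log (4 ^ d : ℕ) / Real.log (9 ^ d : ℕ)⌉₊ + 1 with hD
  refine ⟨N, hN, (D + 1) * (T1 + 1), Nat.mul_pos (by omega) (by omega),
    fun x β hβ hx n a hfar => ?_⟩
  have h1 := hT1 (T1 + 1) (by omega) (V β n a) hfar
  classical
  have h2 : ∃ t ∈ range (T1 + 1), ∃ k : ℕ, k ≤ D * (T1 + 1) ∧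
      ((V β n a * ((9 ^ d : ℕ) : ℝ) ^ k / ((4 ^ d : ℕ) : ℝ) ^ t : ℝ) : UnitAddCircle) ∈
        UW 6 w.length (code w) := by
    by_contra hcon
    push Not at hcon
    have h1' : ((range (T1 + 1)).card : ℝ) ≤ 1 / 2 * ((T1 + 1 : ℕ) : ℝ) := by
      refine le_trans ?_ h1
      apply Nat.cast_le.2
      apply Finset.card_le_card
      intro t ht
      exact Finset.mem_filter.2 ⟨ht, hcon t ht⟩
    rw [card_range] at h1'
    push_cast at h1'
    have : (0 : ℝ) ≤ T1 := Nat.cast_nonneg _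
    linarith
  obtain ⟨t, ht, k, hk, hU⟩ := h2
  rw [mem_range] at ht
  refine ⟨t, k, ?_, ?_, ?_⟩
  · nlinarith
  · nlinarith
  have h3 := word_of_mem (b := 6) (by norm_num) (code_lt w) hU
  apply shows_of hβ hx
  have e1 : (6 : ℝ) ^ (a + d * k - d * t + 2 + w.length - 1) *
      ((3 / 2) ^ (n + d * k + d * t) * β) =
      ((6 : ℕ) : ℝ) ^ (w.length + 1) *
        (V β n a * ((9 ^ d : ℕ) : ℝ) ^ k / ((4 ^ d : ℕ) : ℝ) ^ t) := by
    unfold V
    have e2 : a + (d : ℤ) * k - d * t + 2 + (w.length : ℤ) - 1 =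
        a + ((d * k : ℕ) : ℤ) - ((d * t : ℕ) : ℤ) + ((w.length + 1 : ℕ) : ℤ) := by
      push_cast; ring
    rw [e2, zpow_add₀ (by norm_num), zpow_sub₀ (by norm_num), zpow_add₀ (by norm_num),
      zpow_natCast, zpow_natCast, zpow_natCast, pow_add, pow_add]
    have e3 : ((9 ^ d : ℕ) : ℝ) ^ k = (3 / 2) ^ (d * k) * 6 ^ (d * k) := by
      rw [← mul_pow, pow_mul]; norm_num
    have e4 : ((4 ^ d : ℕ) : ℝ) ^ t * (3 / 2) ^ (d * t) = 6 ^ (d * t) := by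
      rw [show ((4 ^ d : ℕ) : ℝ) ^ t = 4 ^ (d * t) by rw [pow_mul]; norm_num, ← mul_pow]; norm_num
    have e5 : ((4 ^ d : ℕ) : ℝ) ^ t ≠ 0 := by positivity
    rw [e3, ← e4]
    have e6 : ((3 : ℝ) / 2) ^ (d * t) ≠ 0 := by positivity
    have e7 : ((6 : ℕ) : ℝ) = 6 := by norm_num
    rw [e7]
    field_simp
    ring
  rw [e1]
  have h4 : (0 : ℝ) ≤ ((6 : ℕ) : ℝ) ^ (w.length + 1) *
      (V β n a * ((9 ^ d : ℕ) : ℝ) ^ k / ((4 ^ d : ℕ) : ℝ) ^ t) := by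
    unfold V; positivity
  have h5 : ((⌊((6 : ℕ) : ℝ) ^ (w.length + 1) *
      (V β n a * ((9 ^ d : ℕ) : ℝ) ^ k / ((4 ^ d : ℕ) : ℝ) ^ t)⌋₊ : ℕ) : ℤ) =
      ⌊((6 : ℕ) : ℝ) ^ (w.length + 1) *
        (V β n a * ((9 ^ d : ℕ) : ℝ) ^ k / ((4 ^ d : ℕ) : ℝ) ^ t)⌋ :=
    Int.natCast_floor_eq_floor h4
  rw [← h5] at h3
  exact_mod_cast h3

end Pool.Agent.H590.CC
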