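import Mathlib
import Pool.Agent.H590.CC.Base

/-!
Far cells on paths: a path with bounded steps which leaves the right edge of the light cone by an
unbounded distance, and the left edge too, contains far cells at arbitrarily large times.
-/

set_option autoImplicit false

open Finset Filter Topology

namespace Pool.Agent.H590.CC

open Pool.Agent.H429R2.Auto
open Pool.Agent.H706R2 (dZ)

/-- two near values with a rational ratio -/
theorem near_ratio {r X Y : ℝ} {a b : ℕ} (hab : ((a : ℝ) + b) * r ≤ 1) (h : (a : ℝ) * Y = b * X)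
    (hX : dZ X < r) (hY : dZ Y < r) (hpos : 0 < a + b) :
    (a : ℤ) * round Y = b * round X := by
  unfold dZ at hX hY
  have h1 : |(((a : ℤ) * round Y - b * round X : ℤ) : ℝ)| < 1 := by
    have e : (((a : ℤ) * round Y - b * round X : ℤ) : ℝ) =
        b * (X - round X) - a * (Y - round Y) := by
      push_cast
      linear_combination h
    rw [e]
    have ha : (0 : ℝ) ≤ a := Nat.cast_nonneg a
    have hb : (0 : ℝ) ≤ b := Nat.cast_nonneg b
    have h2 : |(b : ℝ) * (X - round X)| ≤ b * r := by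
      rw [abs_mul, abs_of_nonneg hb]
      exact mul_le_mul_of_nonneg_left hX.le hb
    have h3 : |(a : ℝ) * (Y - round Y)| ≤ a * r := by
      rw [abs_mul, abs_of_nonneg ha]
      exact mul_le_mul_of_nonneg_left hY.le ha
    rcases Nat.eq_zero_or_pos a with h0 | h0
    · have hb0 : (0 : ℝ) < b := by exact_mod_cast (by omega : 0 < b)
      have h4 : |(b : ℝ) * (X - round X)| < b * r := by
        rw [abs_mul, abs_of_nonneg hb]
        exact mul_lt_mul_of_pos_left hX hb0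
      calc _ ≤ |(b : ℝ) * (X - round X)| + |(a : ℝ) * (Y - round Y)| := abs_sub _ _
        _ < b * r + a * r := by linarith
        _ ≤ 1 := by linarith
    · have ha0 : (0 : ℝ) < a := by exact_mod_cast h0
      have h4 : |(a : ℝ) * (Y - round Y)| < a * r := by
        rw [abs_mul, abs_of_nonneg ha]
        exact mul_lt_mul_of_pos_left hY ha0
      calc _ ≤ |(b : ℝ) * (X - round X)| + |(a : ℝ) * (Y - round Y)| := abs_sub _ _
        _ < b * r + a * r := by linarith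
        _ ≤ 1 := by linarith
  have h2 : |(a : ℤ) * round Y - b * round X| < 1 := by exact_mod_cast h1
  have h3 := Int.abs_lt_one_iff.mp h2
  omega

/-- `padicValNat 2 (6 ^ v) = v` -/
theorem val_six (v : ℕ) : padicValNat 2 (6 ^ v) = v := by
  rw [padicValNat.pow]
  have : padicValNat 2 6 = 1 := by
    rw [show (6 : ℕ) = 2 * 3 by norm_num, padicValNat.mul (by norm_num) (by norm_num)]
    have h3' : padicValNat 2 3 = 0 := padicValNat.eq_zero_of_not_dvd (by norm_num)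
    simp [h3']
  rw [this, mul_one]

/-- one step of a path -/
theorem step {d K : ℕ} {r : ℝ} (hr0 : 0 < r) (hr : 2 * 3 ^ d * (6 : ℝ) ^ K * r ≤ 1) {X Y : ℝ}
    {s : ℤ} (hs : |s| ≤ K) (h : Y = X * (3 / 2) ^ d * (6 : ℝ) ^ s) (hX : dZ X < r) (hY : dZ Y < r) :
    (round X = 0 ↔ round Y = 0) ∧ (round X ≠ 0 →
      (padicValInt 2 (round Y) : ℤ) = padicValInt 2 (round X) + s - d) := by
  obtain ⟨u, hu⟩ : ∃ u : ℕ, (u : ℤ) = max s 0 := ⟨(max s 0).toNat, by omega⟩
  obtain ⟨v, hv⟩ : ∃ v : ℕ, (v : ℤ) = max (-s) 0 := ⟨(max (-s) 0).toNat, by omega⟩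
  rw [abs_le] at hs
  have huK : u ≤ K := by omega
  have hvK : v ≤ K := by omega
  have huv : s = (u : ℤ) - v := by omega
  have e1 : ((2 ^ d * 6 ^ v : ℕ) : ℝ) * Y = ((3 ^ d * 6 ^ u : ℕ) : ℝ) * X := by
    rw [h, huv, zpow_sub₀ (by norm_num), zpow_natCast, zpow_natCast, div_pow]
    push_cast
    field_simp
  have h1 : (6 : ℝ) ^ u ≤ 6 ^ K := pow_le_pow_right₀ (by norm_num) huK
  have h2 : (6 : ℝ) ^ v ≤ 6 ^ K := pow_le_pow_right₀ (by norm_num) hvK
  have h2' : (2 : ℝ) ^ d ≤ 3 ^ d := pow_le_pow_left₀ (by norm_num) (by norm_num) d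
  have h3 : (((2 ^ d * 6 ^ v : ℕ) : ℝ) + ((3 ^ d * 6 ^ u : ℕ) : ℝ)) * r ≤ 1 := by
    push_cast
    have h4 : (2 : ℝ) ^ d * 6 ^ v ≤ 3 ^ d * 6 ^ K := by gcongr
    have h5 : (3 : ℝ) ^ d * 6 ^ u ≤ 3 ^ d * 6 ^ K := by gcongr
    calc ((2 : ℝ) ^ d * (6 : ℝ) ^ v + 3 ^ d * 6 ^ u) * r ≤ (2 * 3 ^ d * 6 ^ K) * r := by
          apply mul_le_mul_of_nonneg_right _ hr0.le
          linarith
      _ ≤ 1 := hr
  have h4 := near_ratio h3 e1 hX hY (by positivity)
  have h6v : ((2 ^ d * 6 ^ v : ℕ) : ℤ) ≠ 0 := by positivity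
  have h6u : ((3 ^ d * 6 ^ u : ℕ) : ℤ) ≠ 0 := by positivity
  have hiff : round X = 0 ↔ round Y = 0 := by
    constructor
    · intro h0
      rw [h0, mul_zero] at h4
      exact (mul_eq_zero.1 h4).resolve_left h6v
    · intro h0
      rw [h0, mul_zero] at h4
      exact (mul_eq_zero.1 h4.symm).resolve_left h6u
  refine ⟨hiff, fun hX0 => ?_⟩
  have hY0 : round Y ≠ 0 := fun h0 => hX0 (hiff.2 h0)
  have h5 : padicValInt 2 (((2 ^ d * 6 ^ v : ℕ) : ℤ) * round Y) =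
      padicValInt 2 (((3 ^ d * 6 ^ u : ℕ) : ℤ) * round X) := by rw [h4]
  rw [padicValInt.mul h6v hY0, padicValInt.mul h6u hX0, padicValInt.of_nat, padicValInt.of_nat] at h5
  rw [padicValNat.mul (by positivity) (by positivity), padicValNat.mul (by positivity)
    (by positivity), val_six, val_six, padicValNat.pow, padicValNat.pow,
    padicValNat.eq_zero_of_not_dvd (by norm_num : ¬ 2 ∣ 3)] at h5
  simp only [padicValNat.self (by norm_num : 1 < 2), mul_zero, mul_one, zero_add] at h5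
  omega

/-- a run of near cells along a path -/
theorem run {d K : ℕ} {r : ℝ} (hr0 : 0 < r) (hr : 2 * 3 ^ d * (6 : ℝ) ^ K * r ≤ 1) {X : ℕ → ℝ}
    {p : ℕ → ℤ} (hp : ∀ n, |p (n + 1) - p n| ≤ K)
    (hX : ∀ n, X (n + 1) = X n * (3 / 2) ^ d * (6 : ℝ) ^ (p (n + 1) - p n)) (n₀ : ℕ) (h : ℕ)
    (hnear : ∀ i ≤ h, dZ (X (n₀ + i)) < r) :
    (round (X n₀) = 0 ↔ round (X (n₀ + h)) = 0) ∧ (round (X n₀) ≠ 0 →
      (padicValInt 2 (round (X (n₀ + h))) : ℤ) =
        padicValInt 2 (round (X n₀)) + (p (n₀ + h) - p n₀) - d * h) := by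
  induction h with
  | zero => simp
  | succ h ih =>
    obtain ⟨ih1, ih2⟩ := ih fun i hi => hnear i (hi.trans (Nat.le_succ h))
    obtain ⟨s1, s2⟩ := step hr0 hr (hp (n₀ + h)) (hX (n₀ + h)) (hnear h (Nat.le_succ h))
      (hnear (h + 1) le_rfl)
    refine ⟨ih1.trans s1, fun h0 => ?_⟩
    have e : n₀ + (h + 1) = n₀ + h + 1 := by ring
    rw [e]
    have h1 := ih2 h0
    have h2 := s2 (fun hc => h0 (ih1.2 hc))
    rw [h2, h1]
    push_cast
    ring

/-- the values along a path with every `d`-th time -/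
theorem V_step (β : ℝ) (c : ℝ) (p : ℕ → ℤ) (b d n : ℕ) :
    c * V β (b + d * (n + 1)) (p (n + 1)) =
      c * V β (b + d * n) (p n) * (3 / 2) ^ d * (6 : ℝ) ^ (p (n + 1) - p n) := by
  unfold V
  rw [zpow_sub₀ (by norm_num), show b + d * (n + 1) = b + d * n + d by ring, pow_add _ (b + d * n) d]
  have : (6 : ℝ) ^ (p n) ≠ 0 := by positivity
  field_simp

theorem V_eq (β : ℝ) (n : ℕ) (a : ℤ) :
    V β n a = β * (6 : ℝ) ^ ((a : ℝ) + n * Real.logb 6 (3 / 2)) := by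
  unfold V
  rw [Real.rpow_add (by norm_num), mul_comm ((n : ℝ)) (Real.logb 6 (3 / 2)),
    Real.rpow_mul (by norm_num), Real.rpow_logb (by norm_num) (by norm_num) (by norm_num),
    Real.rpow_intCast, Real.rpow_natCast]
  ring

/-- if a sequence is unbounded it is unbounded after every time -/
theorem unbdd_after {u : ℕ → ℝ} (h : ∀ B : ℝ, ∃ n, B < u n) (n₀ : ℕ) (B : ℝ) :
    ∃ n, n₀ ≤ n ∧ B < u n := by
  obtain ⟨C, hC⟩ : ∃ C : ℝ, ∀ n < n₀, u n ≤ C := by
    induction n₀ with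
    | zero => exact ⟨0, fun n hn => absurd hn (Nat.not_lt_zero n)⟩
    | succ m ih =>
      obtain ⟨C, hC⟩ := ih
      refine ⟨max C (u m), fun n hn => ?_⟩
      rcases Nat.lt_succ_iff_lt_or_eq.1 hn with h1 | h1
      · exact (hC n h1).trans (le_max_left _ _)
      · rw [h1]; exact le_max_right _ _
  obtain ⟨n, hn⟩ := h (max B C)
  refine ⟨n, ?_, (le_max_left _ _).trans_lt hn⟩
  by_contra hlt
  exact absurd (hC n (not_le.1 hlt)) (not_le.2 ((le_max_right _ _).trans_lt hn))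

/-- **Far cells on paths.** -/
theorem far_on_path {d K : ℕ} {r : ℝ} (hr0 : 0 < r)
    (hr : 2 * 3 ^ d * (6 : ℝ) ^ K * r ≤ 1) {β : ℝ}
    (hβ : 0 < β) {N : ℕ} (hN : 1 ≤ N) (b : ℕ) {p : ℕ → ℤ} (hp : ∀ n, |p (n + 1) - p n| ≤ K)
    (h1 : ∀ B : ℝ, ∃ n : ℕ, B < d * n - p n)
    (h2 : ∀ B : ℝ, ∃ n : ℕ, B < p n + (b + d * n : ℕ) * Real.logb 6 (3 / 2)) (n₀ : ℕ) :
    ∃ n, n₀ ≤ n ∧ r ≤ dZ (N * V β (b + d * n) (p n)) := by
  by_contra hcon
  push Not at hcon
  have hNR : (1 : ℝ) ≤ N := by exact_mod_cast hN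
  have hrun := fun h : ℕ => run hr0 hr (X := fun n => N * V β (b + d * n) (p n)) hp
    (fun n => V_step β N p b d n) n₀ h (fun i _ => hcon (n₀ + i) (Nat.le_add_right _ _))
  -- the rounded value is not zero
  have hne : round ((N : ℝ) * V β (b + d * n₀) (p n₀)) ≠ 0 := by
    intro h0
    obtain ⟨n, hn, hB⟩ := unbdd_after h2 n₀ (Real.logb 6 (1 / β))
    obtain ⟨h, rfl⟩ := Nat.exists_eq_add_of_le hn
    have h3 := (hrun h).1.1 h0
    have h4 := hcon (n₀ + h) hn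
    unfold dZ at h4
    rw [h3] at h4
    have h5 : (1 : ℝ) < V β (b + d * (n₀ + h)) (p (n₀ + h)) := by
      rw [V_eq]
      have h6 : 1 / β <
          (6 : ℝ) ^ ((p (n₀ + h) : ℝ) + ((b + d * (n₀ + h) : ℕ) : ℝ) * Real.logb 6 (3 / 2)) := by
        calc 1 / β = (6 : ℝ) ^ (Real.logb 6 (1 / β)) :=
              (Real.rpow_logb (by norm_num) (by norm_num) (by positivity)).symm
          _ < _ := Real.rpow_lt_rpow_of_exponent_lt (by norm_num) hB
      rw [div_lt_iff₀ hβ] at h6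
      linarith
    have h7 : (1 : ℝ) < N * V β (b + d * (n₀ + h)) (p (n₀ + h)) := by nlinarith
    rw [Int.cast_zero, sub_zero, abs_of_pos (by linarith)] at h4
    have h8 : (1 : ℝ) ≤ 6 ^ K := one_le_pow₀ (by norm_num)
    have h9 : (1 : ℝ) ≤ 3 ^ d := one_le_pow₀ (by norm_num)
    have h10 : (1 : ℝ) ≤ 3 ^ d * 6 ^ K := by nlinarith
    have h11 : r ≤ 2 * 3 ^ d * 6 ^ K * r := by nlinarith
    linarith
  obtain ⟨n, hn, hB⟩ := unbdd_after h1 n₀
    ((padicValInt 2 (round ((N : ℝ) * V β (b + d * n₀) (p n₀))) : ℝ) + d * n₀ - p n₀)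
  obtain ⟨h, rfl⟩ := Nat.exists_eq_add_of_le hn
  have h3 := (hrun h).2 hne
  have h4 : (0 : ℤ) ≤
      (padicValInt 2 (round ((N : ℝ) * V β (b + d * (n₀ + h)) (p (n₀ + h)))) : ℤ) :=
    Int.natCast_nonneg _
  rw [h3] at h4
  have h5 : (0 : ℝ) ≤ (padicValInt 2 (round ((N : ℝ) * V β (b + d * n₀) (p n₀))) : ℝ) +
      ((p (n₀ + h) : ℝ) - p n₀) - d * h := by exact_mod_cast h4
  push_cast at hB
  linarith

end Pool.Agent.H590.CC
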