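import Mathlib
import Pool.Agent.H590.CC.Far

/-!
Every word occurs infinitely often at a bounded distance from every path.
-/

set_option autoImplicit false

open Finset Filter Topology

namespace Pool.Agent.H590.CC

open Pool.Agent.H429R2.Auto
open Pool.Agent.H706R2 (dZ)

/-- a path with bounded steps -/
theorem path_dist {K : ℕ} {p : ℕ → ℤ} (hp : ∀ n, |p (n + 1) - p n| ≤ K) (n h : ℕ) :
    |p (n + h) - p n| ≤ K * h := by
  induction h with
  | zero => simp
  | succ h ih =>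
    have h1 := hp (n + h)
    have h2 := abs_add_le (p (n + h + 1) - p (n + h)) (p (n + h) - p n)
    have e : p (n + h + 1) - p (n + h) + (p (n + h) - p n) = p (n + (h + 1)) - p n := by
      rw [← add_assoc]; ring
    rw [e] at h2
    push_cast
    linarith

theorem log_pos : 0 < Real.logb 6 (3 / 2) := Real.logb_pos (by norm_num) (by norm_num)

theorem log_le : Real.logb 6 (3 / 2) ≤ 1 := by
  rw [Real.logb_le_iff_le_rpow (by norm_num) (by norm_num)]
  norm_num

/-- the constants of a word and a bound for the steps -/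
theorem near_path (w : List (Fin 6)) (K : ℕ) {d : ℕ} (hd : 1 ≤ d) : ∃ T : ℕ, 1 ≤ T ∧
    ∀ x : Conf, IsFin x → x ≠ 0 → ∀ (b : ℕ) (p : ℕ → ℤ), (∀ n, |p (n + 1) - p n| ≤ K) →
      (∀ B : ℝ, ∃ n : ℕ, B < n - p n) →
      (∀ B : ℝ, ∃ n : ℕ, B < p n + n * Real.logb 6 (3 / 2)) →
      ∀ n₀ : ℕ, ∃ n t k : ℕ, n₀ ≤ n ∧ n ≡ b [MOD d] ∧ t ≤ T ∧ k ≤ T ∧
        ShowsAt (F^[n + d * k + d * t] x) w (p n + d * k - d * t + 2) := by
  set r : ℝ := 1 / (2 * 3 ^ d * (6 : ℝ) ^ (K * d)) with hrdef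
  have hr0 : 0 < r := by positivity
  have hr : 2 * 3 ^ d * (6 : ℝ) ^ (K * d) * r ≤ 1 := by
    rw [hrdef]
    apply le_of_eq
    field_simp
  obtain ⟨N, hN, T, hT, hhit⟩ := hit w hd hr0
  refine ⟨T, hT, fun x hx hx0 b p hp h1 h2 n₀ => ?_⟩
  obtain ⟨m, k, hrep, hm, -⟩ := exists_rep hx
  have hm := hm hx0
  have hβ : (0 : ℝ) < (m : ℝ) / 6 ^ k := by positivity
  have hl0 := log_pos
  have hl1 := log_le
  have hdR : (1 : ℝ) ≤ d := by exact_mod_cast hd
  have hKR : (0 : ℝ) ≤ K := Nat.cast_nonneg K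
  -- the time `b + d m` before `n`
  have hbefore : ∀ n : ℕ, b ≤ n → ∃ m ρ : ℕ, n = b + d * m + ρ ∧ ρ < d := fun n hn =>
    ⟨(n - b) / d, (n - b) % d, by have := Nat.div_add_mod (n - b) d; omega,
      Nat.mod_lt _ (by omega)⟩
  have hclose : ∀ m ρ : ℕ, ρ < d → |(p (b + d * m + ρ) : ℝ) - p (b + d * m)| ≤ K * d := by
    intro m ρ hρ
    have h3 := path_dist hp (b + d * m) ρ
    have h4 : |(p (b + d * m + ρ) : ℝ) - p (b + d * m)| ≤ K * ρ := by exact_mod_cast h3
    refine h4.trans ?_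
    have : (ρ : ℝ) ≤ d := by exact_mod_cast hρ.le
    gcongr
  obtain ⟨n, hn, hfar⟩ := far_on_path (d := d) (K := K * d) hr0 hr hβ hN b
    (p := fun m => p (b + d * m))
    (fun m => by
      have h3 := path_dist hp (b + d * m) d
      have e : b + d * (m + 1) = b + d * m + d := by ring
      simp only [e]
      push_cast
      exact h3)
    (fun B => by
      obtain ⟨n, hn, hB⟩ := unbdd_after h1 b (B + b + d + K * d)
      obtain ⟨m, ρ, rfl, hρ⟩ := hbefore n hn
      refine ⟨m, ?_⟩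
      have h3 := abs_le.1 (hclose m ρ hρ)
      have h4 : (ρ : ℝ) ≤ d := by exact_mod_cast hρ.le
      push_cast at hB
      linarith [h3.1, h3.2])
    (fun B => by
      obtain ⟨n, hn, hB⟩ := unbdd_after h2 b (B + d + K * d)
      obtain ⟨m, ρ, rfl, hρ⟩ := hbefore n hn
      refine ⟨m, ?_⟩
      have h3 := abs_le.1 (hclose m ρ hρ)
      have h4 : (ρ : ℝ) ≤ d := by exact_mod_cast hρ.le
      have h5 : (0 : ℝ) ≤ ρ := Nat.cast_nonneg _
      have h6 : (ρ : ℝ) * Real.logb 6 (3 / 2) ≤ d := by nlinarith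
      have e : ((b + d * m + ρ : ℕ) : ℝ) * Real.logb 6 (3 / 2) =
        ((b + d * m : ℕ) : ℝ) * Real.logb 6 (3 / 2) + ρ * Real.logb 6 (3 / 2) := by
        push_cast; ring
      rw [e] at hB
      linarith [h3.1, h3.2]) n₀
  obtain ⟨t, k, ht, hk, hs⟩ := hhit x _ hβ.le hrep (b + d * n) (p (b + d * n)) hfar
  refine ⟨b + d * n, t, k, ?_, ?_, ht, hk, hs⟩
  · nlinarith
  · unfold Nat.ModEq
    rw [Nat.add_mul_mod_self_left]

/-- words near paths -/
theorem near_path' (w : List (Fin 6)) (K : ℕ) : ∃ T : ℕ,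
    ∀ x : Conf, IsFin x → x ≠ 0 → ∀ p : ℕ → ℤ, (∀ n, |p (n + 1) - p n| ≤ K) →
      (∀ B : ℝ, ∃ n : ℕ, B < n - p n) →
      (∀ B : ℝ, ∃ n : ℕ, B < p n + n * Real.logb 6 (3 / 2)) →
      ∀ n₀ : ℕ, ∃ n : ℕ, ∃ j : ℤ, n₀ ≤ n ∧ |j - p n| ≤ T ∧ ShowsAt (F^[n] x) w j := by
  obtain ⟨T, hT, h⟩ := near_path w K (d := 1) le_rfl
  refine ⟨2 * K * T + T + 2, fun x hx hx0 p hp h1 h2 n₀ => ?_⟩
  obtain ⟨n, t, k, hn, -, ht, hk, hs⟩ := h x hx hx0 0 p hp h1 h2 n₀
  rw [one_mul, one_mul] at hs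
  refine ⟨n + k + t, p n + k - t + 2, by omega, ?_, ?_⟩
  · have h3 := path_dist hp n (k + t)
    rw [← add_assoc] at h3
    have hkt : ((k + t : ℕ) : ℤ) ≤ 2 * T := by push_cast; omega
    have h4 := mul_le_mul_of_nonneg_left hkt (Int.natCast_nonneg K)
    have h5 := abs_le.1 (h3.trans h4)
    push_cast
    have h6 : (k : ℤ) ≤ T := by exact_mod_cast hk
    have h7 : (t : ℤ) ≤ T := by exact_mod_cast ht
    rw [abs_le]
    constructor <;> linarith [h5.1, h5.2, Int.natCast_nonneg k, Int.natCast_nonneg t]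
  · have e : p n + ((1 : ℕ) : ℤ) * k - ((1 : ℕ) : ℤ) * t + 2 = p n + k - t + 2 := by push_cast; ring
    rw [e] at hs
    exact hs

/-- a word which contains `w` at all places modulo `d` -/
def spread (w : List (Fin 6)) (d : ℕ) : List (Fin 6) :=
  (List.range (d * (d * w.length + 1))).map fun q => w.getD (q % (d * w.length + 1)) 0

theorem shows_spread {y : ℤ → Fin 6} {w : List (Fin 6)} {d : ℕ} (hd : 1 ≤ d) {j : ℤ}
    (h : ShowsAt y (spread w d) j) (e : ℤ) :
    ∃ i : ℕ, i < d ∧ j + i * (d * w.length + 1 : ℕ) ≡ e [ZMOD d] ∧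
      ShowsAt y w (j + i * (d * w.length + 1 : ℕ)) := by
  have hdZ : (0 : ℤ) < d := by exact_mod_cast hd
  obtain ⟨i, hi⟩ : ∃ i : ℕ, (i : ℤ) = (e - j) % d :=
    ⟨((e - j) % d).toNat, by have := Int.emod_nonneg (e - j) hdZ.ne'; omega⟩
  have hid : i < d := by
    have := Int.emod_lt_of_pos (e - j) hdZ
    omega
  refine ⟨i, hid, ?_, ?_⟩
  · have h1 : (i : ℤ) ≡ e - j [ZMOD d] := by
      rw [hi]
      exact Int.mod_modEq _ _
    have h2 : (i : ℤ) * (d * w.length + 1 : ℕ) ≡ i [ZMOD d] := by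
      have : (i : ℤ) * (d * w.length + 1 : ℕ) = i + d * (i * w.length) := by push_cast; ring
      rw [this]
      unfold Int.ModEq
      rw [Int.add_mul_emod_self_left]
    calc j + i * (d * w.length + 1 : ℕ) ≡ j + i [ZMOD d] := Int.ModEq.add_left _ h2
      _ ≡ j + (e - j) [ZMOD d] := Int.ModEq.add_left _ h1
      _ = e := by ring
  · intro q hq
    set M : ℕ := d * w.length + 1 with hM
    have hqM : q < M := by
      have : w.length ≤ d * w.length := Nat.le_mul_of_pos_left _ (by omega)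
      omega
    have hlen : (spread w d).length = d * M := by simp [spread, hM]
    have hlt : i * M + q < (spread w d).length := by
      rw [hlen]
      calc i * M + q < i * M + M := by omega
        _ = (i + 1) * M := by ring
        _ ≤ d * M := Nat.mul_le_mul_right _ (by omega)
    have h1 := h (i * M + q) hlt
    have h2 : (spread w d)[i * M + q] = w[q] := by
      simp only [spread, List.getElem_map, List.getElem_range]
      have h3 : (i * M + q) % M = q := by
        rw [Nat.mul_comm, Nat.mul_add_mod, Nat.mod_eq_of_lt hqM]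
      rw [← hM, h3, List.getD_eq_getElem?_getD, List.getElem?_eq_getElem hq]
      rfl
    rw [h2] at h1
    rw [← h1]
    congr 1
    push_cast
    ring

end Pool.Agent.H590.CC
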