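import Mathlib
import Pool.Graph.R_seed8.TH461.AL.Fin5
import Pool.Graph.R_seed8.TH461.AL.WbC
import Pool.Agent.H590.CC.Path

/-!
Near a far cell, a word stands at many cells of almost all columns.
-/

set_option autoImplicit false

open Finset Filter Topology

namespace Pool.Agent.H590.CC

open Pool.Agent.H429R2.Auto
open Pool.Agent.TH461.AL
open Pool.Agent.TH461.AL.Nl (UW isOpen_UW nonempty_UW mem_UW word_of_mem)
open Pool.Agent.H706R2 (dZ)

/-- the core property, for every small distance -/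
theorem coreB {u w : ℕ} (hu : 2 ≤ u) (huw : u < w) (hco : Nat.Coprime u w) {r : ℝ} (hr0 : 0 < r)
    (hr1 : ((u : ℝ) + w) * r ≤ 1) :
    ∃ κ D : ℕ, (∀ θ : ℝ, UpDown (Fb w u r θ) κ) ∧ Col.CoreB w u r D := by
  obtain ⟨κ, hκ⟩ := Ud3.updown3 u w hu huw hco
  have hud : ∀ θ : ℝ, UpDown (Fb w u r θ) κ := fun θ => hκ r hr0 hr1 θ
  obtain ⟨D, hD⟩ := Lin3.line3 u w hu huw hco r hr0 hr1 Anti.anti
    (Pool.Agent.TH461.SST.Main.cluster (by omega) hu hco.symm) κ hud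
  have hlev := Lev2.level2 {F | ∃ θ : ℝ, F = Fb w u r θ} D κ hD (by
    rintro F ⟨θ, rfl⟩
    exact hud θ)
  have hmul := Mul.multi _ _ hlev
  obtain ⟨D2, hW⟩ := WbC.wordb u w hu huw hco (Fs.furst (Cr.core2 Acc.acc))
  obtain ⟨D', hD'⟩ := Gen4.core_b hu huw hr0 hmul hW
  exact ⟨κ, D', hud, hD'⟩

/-- a word in a cell of the grid around `(n₀, p)` -/
theorem shows_of_grid {x : Conf} {β : ℝ} (hβ : 0 ≤ β) (hx : Rep x β) (w : List (Fin 6)) {d : ℕ}
    {n₀ : ℕ} {p : ℤ} {t : ℕ} {i : ℤ} {n : ℕ} (hn : (n : ℤ) = n₀ + d * (i - t))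
    (h : ((V β n₀ p * ((3 ^ d : ℕ) : ℝ) ^ i * ((2 ^ d : ℕ) : ℝ) ^ ((2 * t : ℕ) - i : ℤ) : ℝ) :
      UnitAddCircle) ∈ UW 6 w.length (code w)) :
    ShowsAt (F^[n] x) w (p + d * t + 2) := by
  have h3 := word_of_mem (b := 6) (by norm_num) (code_lt w) h
  apply shows_of hβ hx
  have e1 : (6 : ℝ) ^ (p + d * t + 2 + w.length - 1) * ((3 / 2) ^ n * β) =
      ((6 : ℕ) : ℝ) ^ (w.length + 1) *
        (V β n₀ p * ((3 ^ d : ℕ) : ℝ) ^ i * ((2 ^ d : ℕ) : ℝ) ^ ((2 * t : ℕ) - i : ℤ)) := by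
    unfold V
    have e2 : p + (d : ℤ) * t + 2 + (w.length : ℤ) - 1 =
        p + ((d * t : ℕ) : ℤ) + ((w.length + 1 : ℕ) : ℤ) := by push_cast; ring
    have e3 : ((3 : ℝ) / 2) ^ n = (3 / 2) ^ n₀ * (((3 : ℝ) ^ d) ^ i / ((2 : ℝ) ^ d) ^ i) /
        (((3 : ℝ) ^ d) ^ t / ((2 : ℝ) ^ d) ^ t) := by
      have q1 : ((3 : ℝ) ^ d) ^ i / ((2 : ℝ) ^ d) ^ i = ((3 / 2 : ℝ) ^ d) ^ i := by
        rw [← div_zpow, ← div_pow]
      have q2 : ((3 : ℝ) ^ d) ^ t / ((2 : ℝ) ^ d) ^ t = ((3 / 2 : ℝ) ^ d) ^ t := by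
        rw [← div_pow, ← div_pow]
      have q3 : ((3 / 2 : ℝ) ^ d) ≠ 0 := by positivity
      rw [q1, q2, ← zpow_natCast ((3 : ℝ) / 2) n, hn, zpow_add₀ (by norm_num), zpow_natCast,
        zpow_mul, zpow_natCast, zpow_sub₀ q3, zpow_natCast, mul_div_assoc]
    rw [e2, zpow_add₀ (by norm_num), zpow_add₀ (by norm_num), e3, zpow_natCast, zpow_natCast,
      zpow_sub₀ (by positivity), zpow_natCast, pow_mul (6 : ℝ) d t]
    push_cast
    have e4 : (6 : ℝ) ^ d = 2 ^ d * 3 ^ d := by rw [← mul_pow]; norm_num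
    have e5 : ((2 : ℝ) ^ d) ^ i ≠ 0 := by positivity
    have e6 : ((3 : ℝ) ^ d) ^ i ≠ 0 := by positivity
    have e7 : (2 * t : ℕ) = t + t := by ring
    rw [e4, e7, mul_pow]
    field_simp
    ring
  rw [e1]
  have h4 : (0 : ℝ) ≤ ((6 : ℕ) : ℝ) ^ (w.length + 1) *
      (V β n₀ p * ((3 ^ d : ℕ) : ℝ) ^ i * ((2 ^ d : ℕ) : ℝ) ^ ((2 * t : ℕ) - i : ℤ)) := by
    unfold V; positivity
  have h5 := Int.natCast_floor_eq_floor h4
  rw [← h5] at h3
  exact_mod_cast h3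

open Classical in
/-- **Near a far cell.** -/
theorem near_far (w : List (Fin 6)) {d : ℕ} (hd : 1 ≤ d) {r : ℝ} (hr0 : 0 < r)
    (hr1 : ((2 : ℝ) ^ d + 3 ^ d) * r ≤ 1) {ε δ : ℝ} (hε : 0 < ε) (hε1 : ε ≤ 1) (hδ : 0 < δ) :
    ∃ N : ℕ, 1 ≤ N ∧ ∃ C M₀ : ℕ, ∀ M : ℕ, M₀ ≤ M → ∀ (x : Conf) (β : ℝ), 0 ≤ β → Rep x β →
      ∀ (n₀ : ℕ) (p : ℤ), d * (C * M) ≤ n₀ → r ≤ dZ (N * V β n₀ p) →
        (((range M).filter (fun t : ℕ =>
          (((Icc (n₀ - d * (C * M)) (n₀ + d * (C * M))).filter (fun n : ℕ =>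
            n ≡ n₀ [MOD d] ∧ ShowsAt (F^[n] x) w (p + d * t + 2))).card : ℝ) <
              (M : ℝ) ^ (1 - ε))).card : ℝ) ≤ δ * M := by
  have hu : 2 ≤ 2 ^ d := by
    calc 2 = 2 ^ 1 := by norm_num
      _ ≤ 2 ^ d := Nat.pow_le_pow_right (by norm_num) hd
  have huw : 2 ^ d < 3 ^ d := Nat.pow_lt_pow_left (by norm_num) (by omega)
  have hco : Nat.Coprime (2 ^ d) (3 ^ d) := Nat.Coprime.pow d d (by norm_num)
  obtain ⟨κ, D, hud, hD⟩ := coreB hu huw hco hr0 (by push_cast; exact hr1)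
  obtain ⟨N, hN, hN2⟩ := hD (UW 6 w.length (code w)) (isOpen_UW _ _ _)
    (nonempty_UW (by norm_num) _ _) ε (δ / 2) hε (by positivity)
  obtain ⟨M₀, hM₀⟩ := hN2 (2 * κ)
  refine ⟨N, hN, 2 * (κ + D) + 1, max M₀ 1, fun M hM x β hβ hx n₀ p hn₀ hfar => ?_⟩
  have hM1 : 1 ≤ M := (le_max_right _ _).trans hM
  have hMM : M₀ ≤ 2 * M := by
    have := (le_max_left M₀ 1).trans hM
    omega
  set θ : ℝ := V β n₀ p with hθ
  have hcell : Fb (3 ^ d) (2 ^ d) r (N * θ) 0 0 := by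
    unfold Fb
    simpa using hfar
  have h1 := hM₀ (2 * M) hMM θ 0 (-(2 * κ * M : ℕ)) ((2 * κ * M : ℕ) : ℤ) (by push_cast; linarith)
    (fun t ht => by
      obtain ⟨i', h2, h3⟩ := hud (N * θ) 0 0 hcell (0 + t)
      have h4 : |((0 : ℤ) + t - 0)| = t := by
        rw [zero_add, sub_zero, abs_of_nonneg (Int.natCast_nonneg t)]
      rw [h4, sub_zero] at h2
      have h5 : (κ : ℤ) * t ≤ (2 * κ * M : ℕ) := by
        push_cast
        have : (t : ℤ) ≤ 2 * M := by omega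
        nlinarith [Int.natCast_nonneg κ]
      have h6 := abs_le.1 (h2.trans h5)
      exact ⟨i', h6.1, h6.2, h3⟩)
  -- the bad columns are bad lines
  have h2 : ((range M).filter (fun t : ℕ =>
      (((Icc (n₀ - d * ((2 * (κ + D) + 1) * M)) (n₀ + d * ((2 * (κ + D) + 1) * M))).filter
        (fun n : ℕ => n ≡ n₀ [MOD d] ∧ ShowsAt (F^[n] x) w (p + d * t + 2))).card : ℝ) <
          (M : ℝ) ^ (1 - ε))).card ≤ ((range (2 * M)).filter (fun t : ℕ =>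
            (((Icc (-((2 * κ * M : ℕ) : ℤ) - D * ((2 * M : ℕ) : ℤ))
              (((2 * κ * M : ℕ) : ℤ) + D * ((2 * M : ℕ) : ℤ))).filter (fun i : ℤ =>
              ((θ * ((3 ^ d : ℕ) : ℝ) ^ i * ((2 ^ d : ℕ) : ℝ) ^ (0 + t - i) : ℝ) :
                UnitAddCircle) ∈ UW 6 w.length (code w))).card : ℝ) <
                (((2 * M : ℕ) : ℕ) : ℝ) ^ (1 - ε))).card := by
    refine Finset.card_le_card_of_injOn (fun t => 2 * t) ?_ (fun a _ b _ hab => by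
      simp only at hab
      omega)
    intro t ht
    obtain ⟨ht1, ht2⟩ := Finset.mem_filter.1 (Finset.mem_coe.1 ht)
    rw [mem_range] at ht1
    refine Finset.mem_coe.2 (Finset.mem_filter.2 ⟨mem_range.2 (by simp only; omega), ?_⟩)
    have h3 : (M : ℝ) ^ (1 - ε) ≤ (((2 * M : ℕ) : ℕ) : ℝ) ^ (1 - ε) := by
      apply Real.rpow_le_rpow (Nat.cast_nonneg _) _ (by linarith)
      push_cast
      have : (0 : ℝ) ≤ M := Nat.cast_nonneg M
      linarith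
    refine lt_of_le_of_lt ?_ (lt_of_lt_of_le ht2 h3)
    apply Nat.cast_le.2
    -- the map `i ↦ n₀ + d (i - t)`
    refine Finset.card_le_card_of_injOn (fun i : ℤ => ((n₀ : ℤ) + d * (i - t)).toNat) ?_ ?_
    · intro i hi
      obtain ⟨hi1, hi2⟩ := Finset.mem_filter.1 (Finset.mem_coe.1 hi)
      rw [Finset.mem_Icc] at hi1
      have hb1 : -((2 * (κ + D) + 1 : ℕ) : ℤ) * M ≤ i - t := by
        push_cast at hi1 ⊢
        have : (t : ℤ) < M := by exact_mod_cast ht1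
        nlinarith [hi1.1]
      have hb2 : i - t ≤ ((2 * (κ + D) + 1 : ℕ) : ℤ) * M := by
        push_cast at hi1 ⊢
        have : (0 : ℤ) ≤ t := Int.natCast_nonneg _
        have : (0 : ℤ) ≤ M := Int.natCast_nonneg _
        nlinarith [hi1.2]
      have hd0 : (0 : ℤ) ≤ d := Int.natCast_nonneg _
      have hb3 := mul_le_mul_of_nonneg_left hb1 hd0
      have hb4 := mul_le_mul_of_nonneg_left hb2 hd0
      have hn₀' : (d : ℤ) * (((2 * (κ + D) + 1 : ℕ) : ℤ) * M) ≤ n₀ := by exact_mod_cast hn₀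
      have hnn : (0 : ℤ) ≤ (n₀ : ℤ) + d * (i - t) := by linarith
      have hcast : (((n₀ : ℤ) + d * (i - t)).toNat : ℤ) = (n₀ : ℤ) + d * (i - t) :=
        Int.toNat_of_nonneg hnn
      refine Finset.mem_coe.2 (Finset.mem_filter.2 ⟨Finset.mem_Icc.2 ⟨?_, ?_⟩, ?_, ?_⟩)
      · zify [hn₀]
        rw [hcast]
        push_cast at hb3 ⊢
        linarith
      · zify
        rw [hcast]
        push_cast at hb4 ⊢
        linarith
      · have : (((n₀ : ℤ) + d * (i - t)).toNat : ℤ) ≡ (n₀ : ℤ) [ZMOD d] := by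
          rw [hcast]
          unfold Int.ModEq
          rw [Int.add_mul_emod_self_left]
        exact (Int.natCast_modEq_iff).1 this
      · refine shows_of_grid hβ hx w (i := i) (n₀ := n₀) (p := p) (d := d) (t := t) hcast ?_
        rw [← hθ]
        have e : (0 : ℤ) + ((2 * t : ℕ) : ℤ) - i = ((2 * t : ℕ) : ℤ) - i := by ring
        rw [e] at hi2
        exact hi2
    · intro a ha b hb hab
      have key : ∀ i : ℤ, i ∈ ((Icc (-((2 * κ * M : ℕ) : ℤ) - D * ((2 * M : ℕ) : ℤ))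
              (((2 * κ * M : ℕ) : ℤ) + D * ((2 * M : ℕ) : ℤ))).filter (fun i : ℤ =>
              ((θ * ((3 ^ d : ℕ) : ℝ) ^ i * ((2 ^ d : ℕ) : ℝ) ^ (0 + ((2 * t : ℕ) : ℤ) - i) : ℝ) :
                UnitAddCircle) ∈ UW 6 w.length (code w))) →
            (((n₀ : ℤ) + d * (i - t)).toNat : ℤ) = (n₀ : ℤ) + d * (i - t) := by
        intro i hi
        obtain ⟨hi1, -⟩ := Finset.mem_filter.1 hi
        rw [Finset.mem_Icc] at hi1
        have hb1 : -((2 * (κ + D) + 1 : ℕ) : ℤ) * M ≤ i - t := by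
          push_cast at hi1 ⊢
          have : (t : ℤ) < M := by exact_mod_cast ht1
          nlinarith [hi1.1]
        have hd0 : (0 : ℤ) ≤ d := Int.natCast_nonneg _
        have hb3 := mul_le_mul_of_nonneg_left hb1 hd0
        have hn₀' : (d : ℤ) * (((2 * (κ + D) + 1 : ℕ) : ℤ) * M) ≤ n₀ := by exact_mod_cast hn₀
        exact Int.toNat_of_nonneg (by linarith)
      have ha' := key a (Finset.mem_coe.1 ha)
      have hb' := key b (Finset.mem_coe.1 hb)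
      simp only at hab
      have h5 : (n₀ : ℤ) + d * (a - t) = (n₀ : ℤ) + d * (b - t) := by
        rw [← ha', ← hb', hab]
      have hd0 : (d : ℤ) ≠ 0 := by
        have : 0 < d := by omega
        exact_mod_cast this.ne'
      have h6 : (d : ℤ) * (a - t) = d * (b - t) := by linarith
      have h7 := mul_left_cancel₀ hd0 h6
      linarith
  calc _ ≤ ((((range (2 * M)).filter (fun t : ℕ =>
            (((Icc (-((2 * κ * M : ℕ) : ℤ) - D * ((2 * M : ℕ) : ℤ))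
              (((2 * κ * M : ℕ) : ℤ) + D * ((2 * M : ℕ) : ℤ))).filter (fun i : ℤ =>
              ((θ * ((3 ^ d : ℕ) : ℝ) ^ i * ((2 ^ d : ℕ) : ℝ) ^ (0 + t - i) : ℝ) :
                UnitAddCircle) ∈ UW 6 w.length (code w))).card : ℝ) <
                (((2 * M : ℕ) : ℕ) : ℝ) ^ (1 - ε))).card : ℕ) : ℝ) := Nat.cast_le.2 h2
    _ ≤ δ / 2 * ((2 * M : ℕ) : ℝ) := h1
    _ = δ * M := by push_cast; ring

end Pool.Agent.H590.CC
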