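import Mathlib
import Pool.Agent.H590.CC.Local

/-!
Words at almost all positions of every window.
-/

set_option autoImplicit false

open Finset Filter Topology

namespace Pool.Agent.H590.CC

open Pool.Agent.H429R2.Auto
open Pool.Agent.H706R2 (dZ)

/-- far cells on a path, at the times of a residue class -/
theorem far_times {d K : ℕ} (hd : 1 ≤ d) {r : ℝ} (hr0 : 0 < r)
    (hr : 2 * 3 ^ d * (6 : ℝ) ^ (K * d) * r ≤ 1) {β : ℝ} (hβ : 0 < β) {N : ℕ} (hN : 1 ≤ N) (b : ℕ)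
    {p : ℕ → ℤ} (hp : ∀ n, |p (n + 1) - p n| ≤ K) (h1 : ∀ B : ℝ, ∃ n : ℕ, B < n - p n)
    (h2 : ∀ B : ℝ, ∃ n : ℕ, B < p n + n * Real.logb 6 (3 / 2)) (n₀ : ℕ) :
    ∃ n : ℕ, n₀ ≤ n ∧ n ≡ b [MOD d] ∧ r ≤ dZ (N * V β n (p n)) := by
  have hl0 := log_pos
  have hl1 := log_le
  have hdR : (1 : ℝ) ≤ d := by exact_mod_cast hd
  have hKR : (0 : ℝ) ≤ K := Nat.cast_nonneg K
  have hbefore : ∀ n : ℕ, b ≤ n → ∃ m ρ : ℕ, n = b + d * m + ρ ∧ ρ < d := fun n hn =>
    ⟨(n - b) / d, (n - b) % d, by have := Nat.div_add_mod (n - b) d; omega,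
      Nat.mod_lt _ (by omega)⟩
  have hclose : ∀ m ρ : ℕ, ρ < d → |(p (b + d * m + ρ) : ℝ) - p (b + d * m)| ≤ K * d := by
    intro m ρ hρ
    have h3 := path_dist hp (b + d * m) ρ
    have h4 : |(p (b + d * m + ρ) : ℝ) - p (b + d * m)| ≤ K * ρ := by exact_mod_cast h3
    refine h4.trans ?_
    have : (ρ : ℝ) ≤ d := by exact_mod_cast hρ.le
    gcongr
  obtain ⟨n, hn, hfar⟩ := far_on_path (d := d) (K := K * d) hr0 hr hβ hN b
    (p := fun m => p (b + d * m))
    (fun m => by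
      have h3 := path_dist hp (b + d * m) d
      have e : b + d * (m + 1) = b + d * m + d := by ring
      simp only [e]
      push_cast
      exact h3)
    (fun B => by
      obtain ⟨n, hn, hB⟩ := unbdd_after h1 b (B + b + d + K * d)
      obtain ⟨m, ρ, rfl, hρ⟩ := hbefore n hn
      refine ⟨m, ?_⟩
      have h3 := abs_le.1 (hclose m ρ hρ)
      have h4 : (ρ : ℝ) ≤ d := by exact_mod_cast hρ.le
      push_cast at hB
      linarith [h3.1, h3.2])
    (fun B => by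
      obtain ⟨n, hn, hB⟩ := unbdd_after h2 b (B + d + K * d)
      obtain ⟨m, ρ, rfl, hρ⟩ := hbefore n hn
      refine ⟨m, ?_⟩
      have h3 := abs_le.1 (hclose m ρ hρ)
      have h4 : (ρ : ℝ) ≤ d := by exact_mod_cast hρ.le
      have h5 : (0 : ℝ) ≤ ρ := Nat.cast_nonneg _
      have h6 : (ρ : ℝ) * Real.logb 6 (3 / 2) ≤ d := by nlinarith
      have e : ((b + d * m + ρ : ℕ) : ℝ) * Real.logb 6 (3 / 2) =
        ((b + d * m : ℕ) : ℝ) * Real.logb 6 (3 / 2) + ρ * Real.logb 6 (3 / 2) := by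
        push_cast; ring
      rw [e] at hB
      linarith [h3.1, h3.2]) n₀
  refine ⟨b + d * n, ?_, ?_, hfar⟩
  · nlinarith
  · unfold Nat.ModEq
    rw [Nat.add_mul_mod_self_left]

/-- sizes -/
theorem sizes {ε : ℝ} (hε : 0 < ε) (hε1 : ε ≤ 1) {d : ℕ} (hd : 1 ≤ d) (A : ℝ) :
    ∃ M₀ : ℕ, ∀ M : ℕ, M₀ ≤ M → 1 ≤ M ∧ A ≤ ε / 2 * M ∧
      (M : ℝ) ^ (1 - ε) ≤ ((M / d + 1 : ℕ) : ℝ) ^ (1 - ε / 2) := by
  have hdR : (1 : ℝ) ≤ d := by exact_mod_cast hd
  have hcast := tendsto_natCast_atTop_atTop (R := ℝ)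
  have ht := (tendsto_rpow_atTop (by linarith : 0 < ε / 2)).comp hcast
  obtain ⟨M₀, hM₀⟩ := eventually_atTop.1 ((eventually_ge_atTop 1).and
    ((hcast.eventually_ge_atTop (A / (ε / 2))).and (ht.eventually_ge_atTop (d : ℝ))))
  refine ⟨M₀, fun M hM => ?_⟩
  obtain ⟨h1, h2, h3⟩ := hM₀ M hM
  have hMR : (1 : ℝ) ≤ M := by exact_mod_cast h1
  have hM0 : (0 : ℝ) < M := by linarith
  simp only [Function.comp] at h3
  refine ⟨h1, ?_, ?_⟩
  · rw [div_le_iff₀ (by positivity)] at h2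
    linarith
  · have h4 : (M : ℝ) / d ≤ ((M / d + 1 : ℕ) : ℝ) := by
      rw [div_le_iff₀ (by linarith)]
      have h5 : M ≤ (M / d + 1) * d := by
        have := Nat.div_add_mod M d
        have := Nat.mod_lt M (by omega : 0 < d)
        nlinarith
      exact_mod_cast h5
    have h5 : (0 : ℝ) < (M : ℝ) ^ (1 - ε / 2) := Real.rpow_pos_of_pos hM0 _
    have h6 : (M : ℝ) ^ (1 - ε) * (d : ℝ) ≤ (M : ℝ) ^ (1 - ε / 2) := by
      calc (M : ℝ) ^ (1 - ε) * (d : ℝ) ≤ (M : ℝ) ^ (1 - ε) * (M : ℝ) ^ (ε / 2) := by gcongr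
        _ = (M : ℝ) ^ (1 - ε / 2) := by
            rw [← Real.rpow_add hM0]
            ring_nf
    have h7 : (d : ℝ) ^ (1 - ε / 2) ≤ d := by
      calc (d : ℝ) ^ (1 - ε / 2) ≤ (d : ℝ) ^ (1 : ℝ) :=
            Real.rpow_le_rpow_of_exponent_le hdR (by linarith)
        _ = d := Real.rpow_one _
    have hd0 : (0 : ℝ) < (d : ℝ) ^ (1 - ε / 2) := Real.rpow_pos_of_pos (by linarith) _
    calc (M : ℝ) ^ (1 - ε) ≤ (M : ℝ) ^ (1 - ε / 2) / (d : ℝ) ^ (1 - ε / 2) := by
          rw [le_div_iff₀ hd0]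
          refine le_trans ?_ h6
          exact mul_le_mul_of_nonneg_left h7 (Real.rpow_nonneg hM0.le _)
      _ = ((M : ℝ) / d) ^ (1 - ε / 2) := by
          rw [Real.div_rpow hM0.le (by linarith)]
      _ ≤ _ := Real.rpow_le_rpow (by positivity) h4 (by linarith)

open Classical in
/-- **Windows of positions along a path.** -/
theorem windows (w : List (Fin 6)) {d : ℕ} (hd : 1 ≤ d) (K : ℕ) {ε δ : ℝ} (hε : 0 < ε)
    (hε1 : ε ≤ 1) (hδ : 0 < δ) :
    ∃ C M₀ : ℕ, ∀ M : ℕ, M₀ ≤ M → ∀ x : Conf, IsFin x → x ≠ 0 → ∀ p : ℕ → ℤ,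
      (∀ n, |p (n + 1) - p n| ≤ K) → (∀ B : ℝ, ∃ n : ℕ, B < n - p n) →
      (∀ B : ℝ, ∃ n : ℕ, B < p n + n * Real.logb 6 (3 / 2)) → ∀ b : ℕ,
      ∃ᶠ n₀ : ℕ in atTop, n₀ ≡ b [MOD d] ∧
        (((Ico (p n₀) (p n₀ + M)).filter (fun j : ℤ =>
          (((Icc (n₀ - C * M) (n₀ + C * M)).filter (fun n : ℕ =>
            n ≡ b [MOD d] ∧ ShowsAt (F^[n] x) w j)).card : ℝ) < (M : ℝ) ^ (1 - ε))).card : ℝ) ≤
              δ * M := by
  set r : ℝ := 1 / (2 * 3 ^ d * (6 : ℝ) ^ (K * d)) with hrdef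
  have hr0 : 0 < r := by positivity
  have hr : 2 * 3 ^ d * (6 : ℝ) ^ (K * d) * r ≤ 1 := by
    rw [hrdef]
    apply le_of_eq
    field_simp
  have hr1 : ((2 : ℝ) ^ d + 3 ^ d) * r ≤ 1 := by
    refine le_trans ?_ hr
    apply mul_le_mul_of_nonneg_right _ hr0.le
    have h1 : (2 : ℝ) ^ d ≤ 3 ^ d := pow_le_pow_left₀ (by norm_num) (by norm_num) d
    have h2 : (1 : ℝ) ≤ 6 ^ (K * d) := one_le_pow₀ (by norm_num)
    have h3 : (0 : ℝ) < 3 ^ d := by positivity
    nlinarith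
  set δ' : ℝ := min δ 1 with hδ'
  have hδ'0 : 0 < δ' := lt_min hδ one_pos
  have hδ'1 : δ' ≤ 1 := min_le_right _ _
  obtain ⟨N, hN, C, M₁, hloc⟩ := near_far (spread w d) hd hr0 hr1 (ε := ε / 2) (δ := δ' / 2)
    (by positivity) (by linarith) (by positivity)
  set P : ℕ := d * w.length + 1 with hP
  obtain ⟨M₂, hM₂⟩ := sizes hε hε1 hd 0
  obtain ⟨M₃, hM₃⟩ := sizes hδ'0 hδ'1 hd (2 + d * P + d)
  refine ⟨2 * d * C, max (max (d * M₁) M₂) M₃, fun M hM x hx hx0 p hp h1 h2 b => ?_⟩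
  have hMa : d * M₁ ≤ M := ((le_max_left _ _).trans (le_max_left _ _)).trans hM
  have hMb : M₂ ≤ M := ((le_max_right _ _).trans (le_max_left _ _)).trans hM
  have hMc : M₃ ≤ M := (le_max_right _ _).trans hM
  obtain ⟨hM1, -, hs2⟩ := hM₂ M hMb
  obtain ⟨-, hs1, -⟩ := hM₃ M hMc
  set M' : ℕ := M / d + 1 with hM'
  have hM'1 : M₁ ≤ M' := by
    have : M₁ ≤ M / d := (Nat.le_div_iff_mul_le (by omega)).2 (by rw [mul_comm]; exact hMa)
    omega
  have hM'2 : M' ≤ 2 * M := by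
    have : M / d ≤ M := Nat.div_le_self _ _
    omega
  have hM'3 : d * M' ≤ M + d := by
    have := Nat.div_mul_le_self M d
    rw [hM']
    nlinarith
  obtain ⟨m, k, hrep, hm, -⟩ := exists_rep hx
  have hm := hm hx0
  have hβ : (0 : ℝ) < (m : ℝ) / 6 ^ k := by positivity
  rw [frequently_atTop]
  intro n₁
  obtain ⟨n₀, hn₀, hmod, hfar⟩ := far_times hd hr0 hr hβ hN b hp h1 h2 (max n₁ (2 * d * C * M))
  refine ⟨n₀, (le_max_left _ _).trans hn₀, hmod, ?_⟩
  have hCM : d * (C * M') ≤ 2 * d * C * M := by nlinarith [Nat.mul_le_mul_left (d * C) hM'2]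
  have hn₀2 : 2 * d * C * M ≤ n₀ := (le_max_right _ _).trans hn₀
  have hbad := hloc M' hM'1 x _ hβ.le hrep n₀ (p n₀) (hCM.trans hn₀2) hfar
  set badT : Finset ℕ := (range M').filter (fun t : ℕ =>
          (((Icc (n₀ - d * (C * M')) (n₀ + d * (C * M'))).filter (fun n : ℕ =>
            n ≡ n₀ [MOD d] ∧ ShowsAt (F^[n] x) (spread w d) (p n₀ + d * t + 2))).card : ℝ) <
              (M' : ℝ) ^ (1 - ε / 2)) with hbadT
  have hsub : (Ico (p n₀) (p n₀ + M)).filter (fun j : ℤ =>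
          (((Icc (n₀ - 2 * d * C * M) (n₀ + 2 * d * C * M)).filter (fun n : ℕ =>
            n ≡ b [MOD d] ∧ ShowsAt (F^[n] x) w j)).card : ℝ) < (M : ℝ) ^ (1 - ε)) ⊆
      Ico (p n₀) (p n₀ + (2 + d * P : ℕ)) ∪
        ((range d) ×ˢ badT).image (fun it => p n₀ + 2 + (it.1 : ℤ) * P + d * (it.2 : ℤ)) := by
    intro j hj
    obtain ⟨hj1, hj2⟩ := Finset.mem_filter.1 hj
    rw [Finset.mem_Ico] at hj1
    rw [Finset.mem_union]
    by_cases hjs : j < p n₀ + (2 + d * P : ℕ)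
    · exact Or.inl (Finset.mem_Ico.2 ⟨hj1.1, hjs⟩)
    · right
      rw [not_lt] at hjs
      have hdZ : (0 : ℤ) < d := by exact_mod_cast hd
      -- the residue
      obtain ⟨i, hi⟩ : ∃ i : ℕ, (i : ℤ) = (j - p n₀ - 2) % d :=
        ⟨((j - p n₀ - 2) % d).toNat, by
          have := Int.emod_nonneg (j - p n₀ - 2) hdZ.ne'
          omega⟩
      have hid : i < d := by
        have := Int.emod_lt_of_pos (j - p n₀ - 2) hdZ
        omega
      have hiP : (i : ℤ) * P ≤ d * P := by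
        have : i * P ≤ d * P := Nat.mul_le_mul_right _ hid.le
        exact_mod_cast this
      have hdvd : (d : ℤ) ∣ j - p n₀ - 2 - i * P := by
        have h3 : (d : ℤ) ∣ j - p n₀ - 2 - i := by
          rw [hi]
          exact Int.dvd_self_sub_emod
        have e : j - p n₀ - 2 - (i : ℤ) * P = (j - p n₀ - 2 - i) - d * (i * w.length) := by
          rw [hP]; push_cast; ring
        rw [e]
        exact dvd_sub h3 (Dvd.intro _ rfl)
      obtain ⟨t', ht'⟩ := hdvd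
      push_cast at hjs
      have ht'0 : 0 ≤ t' := by
        have : 0 ≤ (d : ℤ) * t' := by rw [← ht']; linarith
        exact nonneg_of_mul_nonneg_right this hdZ
      obtain ⟨t, rfl⟩ := Int.eq_ofNat_of_zero_le ht'0
      have htM : t < M' := by
        have h3 : (d : ℤ) * t < M := by
          have : (0 : ℤ) ≤ i * P := by positivity
          linarith
        have h4 : d * t < M := by exact_mod_cast h3
        have h5 : t ≤ M / d := (Nat.le_div_iff_mul_le (by omega)).2 (by rw [mul_comm]; exact h4.le)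
        omega
      have hjeq : j = p n₀ + 2 + (i : ℤ) * P + d * (t : ℤ) := by linarith
      refine Finset.mem_image.2 ⟨(i, t), Finset.mem_product.2 ⟨mem_range.2 hid, ?_⟩, hjeq.symm⟩
      refine Finset.mem_filter.2 ⟨mem_range.2 htM, ?_⟩
      refine lt_of_le_of_lt ?_ (lt_of_lt_of_le hj2 hs2)
      apply Nat.cast_le.2
      apply Finset.card_le_card
      intro n hn
      obtain ⟨hn1, hn2, hn3⟩ := Finset.mem_filter.1 hn
      rw [Finset.mem_Icc] at hn1
      refine Finset.mem_filter.2 ⟨Finset.mem_Icc.2 ⟨?_, ?_⟩, hn2.trans hmod, ?_⟩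
      · exact (Nat.sub_le_sub_left hCM n₀).trans hn1.1
      · exact hn1.2.trans (Nat.add_le_add_left hCM n₀)
      · -- the word `w` in the spread word
        obtain ⟨i', hi', hie, his⟩ := shows_spread hd hn3 j
        have hii : i' = i := by
          have h3 : ((i' : ℤ) : ℤ) ≡ i [ZMOD d] := by
            have h4 : p n₀ + d * (t : ℤ) + 2 + i' * (d * w.length + 1 : ℕ) ≡
                p n₀ + d * (t : ℤ) + 2 + i * (d * w.length + 1 : ℕ) [ZMOD d] := by
              refine hie.trans ?_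
              rw [hjeq, hP]
              ring_nf
              exact Int.ModEq.refl _
            have h5 := Int.ModEq.add_left_cancel' _ h4
            have h6 : ∀ q : ℕ, (q : ℤ) * (d * w.length + 1 : ℕ) ≡ q [ZMOD d] := by
              intro q
              have : (q : ℤ) * (d * w.length + 1 : ℕ) = q + d * (q * w.length) := by push_cast; ring
              rw [this]
              unfold Int.ModEq
              rw [Int.add_mul_emod_self_left]
            exact ((h6 i').symm.trans h5).trans (h6 i)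
          have h4 : i' ≡ i [MOD d] := (Int.natCast_modEq_iff).1 h3
          unfold Nat.ModEq at h4
          rwa [Nat.mod_eq_of_lt hi', Nat.mod_eq_of_lt hid] at h4
        rw [hii] at his
        have e : p n₀ + d * (t : ℤ) + 2 + i * (d * w.length + 1 : ℕ) = j := by
          rw [hjeq, hP]; ring
        rw [e] at his
        exact his
  have hcard := (Finset.card_le_card hsub).trans (Finset.card_union_le _ _)
  rw [Int.card_Ico] at hcard
  have hcard2 : (((range d) ×ˢ badT).image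
      (fun it => p n₀ + 2 + (it.1 : ℤ) * P + d * (it.2 : ℤ))).card ≤ d * badT.card := by
    refine Finset.card_image_le.trans ?_
    rw [Finset.card_product, card_range]
  have e1 : (p n₀ + ((2 + d * P : ℕ) : ℤ) - p n₀).toNat = 2 + d * P := by omega
  rw [e1] at hcard
  have h3 := hcard.trans (Nat.add_le_add_left hcard2 _)
  have h4 : (((Ico (p n₀) (p n₀ + M)).filter (fun j : ℤ =>
          (((Icc (n₀ - 2 * d * C * M) (n₀ + 2 * d * C * M)).filter (fun n : ℕ =>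
            n ≡ b [MOD d] ∧ ShowsAt (F^[n] x) w j)).card : ℝ) < (M : ℝ) ^ (1 - ε))).card : ℝ) ≤
      (2 + d * P) + d * badT.card := by exact_mod_cast h3
  refine h4.trans ?_
  have h5 : (d : ℝ) * badT.card ≤ δ' / 2 * (M + d) := by
    have h6 : ((d * M' : ℕ) : ℝ) ≤ M + d := by exact_mod_cast hM'3
    push_cast at h6
    calc (d : ℝ) * badT.card ≤ d * (δ' / 2 * M') :=
          mul_le_mul_of_nonneg_left hbad (Nat.cast_nonneg _)
      _ = δ' / 2 * (d * M') := by ring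
      _ ≤ δ' / 2 * (M + d) := mul_le_mul_of_nonneg_left h6 (by positivity)
  have h6 : δ' / 2 * d ≤ d := by
    have : (0 : ℝ) ≤ d := Nat.cast_nonneg _
    nlinarith
  have h7 : δ' * M ≤ δ * M := mul_le_mul_of_nonneg_right (min_le_left _ _) (Nat.cast_nonneg _)
  nlinarith

open Classical in
/-- **Fixed windows of positions.** -/
theorem fixed_windows (w : List (Fin 6)) {d : ℕ} (hd : 1 ≤ d) {δ : ℝ} (hδ : 0 < δ) :
    ∃ M₀ : ℕ, ∀ M : ℕ, M₀ ≤ M → ∀ x : Conf, IsFin x → x ≠ 0 → ∀ J : ℤ,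
      (((Ico J (J + M)).filter (fun j : ℤ => ¬ ∀ b : ℕ, ∃ᶠ n : ℕ in atTop,
        n ≡ b [MOD d] ∧ ShowsAt (F^[n] x) w j)).card : ℝ) ≤ δ * M := by
  have hdR : (0 : ℝ) < d := by exact_mod_cast hd
  obtain ⟨C, M₁, h⟩ := windows w hd 0 (ε := 1) (δ := δ / d) one_pos le_rfl (by positivity)
  refine ⟨max M₁ 1, fun M hM x hx hx0 J => ?_⟩
  have hM1 : M₁ ≤ M := (le_max_left _ _).trans hM
  set bad : ℕ → Finset ℤ := fun b => (Ico J (J + M)).filter (fun j : ℤ =>
    ¬ ∃ᶠ n : ℕ in atTop, n ≡ b [MOD d] ∧ ShowsAt (F^[n] x) w j) with hbad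
  have hb : ∀ b, ((bad b).card : ℝ) ≤ δ / d * M := by
    intro b
    have h1 := h M hM1 x hx hx0 (fun _ => J) (fun n => by simp)
      (fun B => by
        obtain ⟨n, hn⟩ := exists_nat_gt (B + (J : ℝ))
        exact ⟨n, by linarith⟩)
      (fun B => by
        obtain ⟨n, hn⟩ := exists_nat_gt ((B - (J : ℝ)) / Real.logb 6 (3 / 2))
        rw [div_lt_iff₀ log_pos] at hn
        exact ⟨n, by linarith⟩) b
    have h2 : ∀ᶠ n : ℕ in atTop, ∀ j ∈ bad b, ¬ (n ≡ b [MOD d] ∧ ShowsAt (F^[n] x) w j) := by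
      rw [Finset.eventually_all]
      intro j hj
      exact not_frequently.1 (Finset.mem_filter.1 hj).2
    obtain ⟨n₁, hn₁⟩ := eventually_atTop.1 h2
    obtain ⟨n₀, hn₀, -, hcard⟩ := (frequently_atTop.1 h1) (n₁ + C * M)
    refine le_trans (Nat.cast_le.2 (Finset.card_le_card ?_)) hcard
    intro j hj
    obtain ⟨hj1, -⟩ := Finset.mem_filter.1 hj
    refine Finset.mem_filter.2 ⟨hj1, ?_⟩
    have h3 : (Icc (n₀ - C * M) (n₀ + C * M)).filter (fun n : ℕ =>
        n ≡ b [MOD d] ∧ ShowsAt (F^[n] x) w j) = ∅ := by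
      rw [Finset.filter_eq_empty_iff]
      intro n hn
      rw [Finset.mem_Icc] at hn
      exact hn₁ n (by omega) j hj
    rw [h3, Finset.card_empty, Nat.cast_zero]
    have : (1 : ℝ) ≤ M := by exact_mod_cast (le_max_right _ _).trans hM
    positivity
  have hsub : (Ico J (J + M)).filter (fun j : ℤ => ¬ ∀ b : ℕ, ∃ᶠ n : ℕ in atTop,
      n ≡ b [MOD d] ∧ ShowsAt (F^[n] x) w j) ⊆ (range d).biUnion bad := by
    intro j hj
    obtain ⟨hj1, hj2⟩ := Finset.mem_filter.1 hj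
    push Not at hj2
    obtain ⟨b, hb'⟩ := hj2
    refine Finset.mem_biUnion.2 ⟨b % d, mem_range.2 (Nat.mod_lt _ (by omega)),
      Finset.mem_filter.2 ⟨hj1, fun hf => ?_⟩⟩
    have h4 : ∀ n : ℕ, n ≡ b % d [MOD d] → n ≡ b [MOD d] := fun n hn =>
      hn.trans (Nat.mod_modEq b d)
    obtain ⟨n, hn1, hn2⟩ := (hf.and_eventually hb').exists
    exact hn2 (h4 n hn1.1) hn1.2
  calc _ ≤ ((((range d).biUnion bad).card : ℕ) : ℝ) := Nat.cast_le.2 (Finset.card_le_card hsub)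
    _ ≤ ∑ b ∈ range d, ((bad b).card : ℝ) := by
        exact_mod_cast Finset.card_biUnion_le
    _ ≤ ∑ _b ∈ range d, δ / d * M := Finset.sum_le_sum fun b _ => hb b
    _ = δ * M := by
        rw [Finset.sum_const, card_range, nsmul_eq_mul]
        field_simp

end Pool.Agent.H590.CC
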