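import Mathlib

/-!
Sets of real numbers with holes: a set which has holes of a proportional size near each of its
points, at arbitrarily small scales, is null; if this holds at all small scales, with a uniform
constant, it has Hausdorff dimension less than one.
-/

set_option autoImplicit false

open Finset Filter Topology MeasureTheory
open scoped ENNReal NNReal

namespace Pool.Agent.H590.CC

/-- holes at arbitrarily small scales -/
theorem null_of_holes (E : Set ℝ) (h : ∀ c ∈ E, ∃ A : ℝ, 0 < A ∧ ∀ ρ₀ : ℝ, 0 < ρ₀ →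
    ∃ ρ : ℝ, 0 < ρ ∧ ρ < ρ₀ ∧ ∃ u : ℝ, c - ρ ≤ u ∧ u + ρ / A ≤ c + ρ ∧
      ∀ y : ℝ, u ≤ y → y < u + ρ / A → y ∉ E) : volume E = 0 := by
  by_contra hE
  have h1 := Besicovitch.ae_tendsto_measure_inter_div (volume : Measure ℝ) E
  have h2 : ∃ c ∈ E, Tendsto (fun r => volume (E ∩ Metric.closedBall c r) /
      volume (Metric.closedBall c r)) (𝓝[>] 0) (𝓝 1) := by
    by_contra hcon
    push Not at hcon
    rw [ae_iff] at h1
    have h3 := Measure.le_restrict_apply (μ := (volume : Measure ℝ)) E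
      {a | ¬Tendsto (fun r => volume (E ∩ Metric.closedBall a r) /
        volume (Metric.closedBall a r)) (𝓝[>] 0) (𝓝 1)}
    have hsub : E ⊆ {a | ¬Tendsto (fun r => volume (E ∩ Metric.closedBall a r) /
        volume (Metric.closedBall a r)) (𝓝[>] 0) (𝓝 1)} := fun c hc => hcon c hc
    rw [h1, Set.inter_eq_right.2 hsub] at h3
    exact hE (le_antisymm h3 zero_le)
  obtain ⟨c, hc, ht⟩ := h2
  obtain ⟨A, hA, hh⟩ := h c hc
  have hlt : ENNReal.ofReal (1 - 1 / (2 * A)) < 1 := by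
    rw [← ENNReal.ofReal_one]
    apply (ENNReal.ofReal_lt_ofReal_iff (by norm_num)).2
    have : 0 < 1 / (2 * A) := by positivity
    linarith
  have h3 := ht.eventually (lt_mem_nhds hlt)
  rw [eventually_nhdsWithin_iff, Metric.eventually_nhds_iff] at h3
  obtain ⟨ρ₀, hρ₀, h4⟩ := h3
  obtain ⟨ρ, hρ, hρ1, u, hu1, hu2, hu3⟩ := hh ρ₀ hρ₀
  have h5 := h4 (by rw [Real.dist_eq, sub_zero, abs_of_pos hρ]; exact hρ1) hρ
  refine absurd h5 (not_lt.2 ?_)
  have h6 : E ∩ Metric.closedBall c ρ ⊆ Metric.closedBall c ρ \ Set.Ico u (u + ρ / A) := by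
    rintro y ⟨hy1, hy2⟩
    exact ⟨hy2, fun hy3 => hu3 y hy3.1 hy3.2 hy1⟩
  have h7 : Set.Ico u (u + ρ / A) ⊆ Metric.closedBall c ρ := by
    intro y hy
    rw [Real.closedBall_eq_Icc]
    exact ⟨hu1.trans hy.1, hy.2.le.trans hu2⟩
  have h8 : volume (E ∩ Metric.closedBall c ρ) ≤ ENNReal.ofReal (2 * ρ - ρ / A) := by
    refine (measure_mono h6).trans ?_
    rw [measure_sdiff h7 measurableSet_Ico.nullMeasurableSet (by
      rw [Real.volume_Ico]; exact ENNReal.ofReal_ne_top)]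
    rw [Real.volume_closedBall, Real.volume_Ico, ← ENNReal.ofReal_sub _ (by
      have : 0 < ρ / A := by positivity
      linarith)]
    apply ENNReal.ofReal_le_ofReal
    linarith
  rw [Real.volume_closedBall]
  have h9 : 0 < ρ / A := by positivity
  calc volume (E ∩ Metric.closedBall c ρ) / ENNReal.ofReal (2 * ρ)
      ≤ ENNReal.ofReal (2 * ρ - ρ / A) / ENNReal.ofReal (2 * ρ) := by gcongr
    _ = ENNReal.ofReal ((2 * ρ - ρ / A) / (2 * ρ)) :=
        (ENNReal.ofReal_div_of_pos (by positivity)).symm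
    _ = ENNReal.ofReal (1 - 1 / (2 * A)) := by
        congr 1
        field_simp

/-- one step: an interval contains a child which is free -/
theorem free_child {A : ℝ} (hA : 1 ≤ A) {m : ℕ} (hm : 6 * A ≤ m) {E : Set ℝ} {ρ₀ : ℝ}
    (h : ∀ c ∈ E, ∀ ρ : ℝ, 0 < ρ → ρ ≤ ρ₀ → ∃ u : ℝ, c - ρ ≤ u ∧ u + ρ / A ≤ c + ρ ∧
      ∀ y : ℝ, u ≤ y → y < u + ρ / A → y ∉ E) {s l : ℝ} (hl : 0 < l) (hl0 : l ≤ ρ₀) :
    ∃ i : ℕ, i < m ∧ ∀ y : ℝ, s + i * (l / m) ≤ y → y < s + (i + 1) * (l / m) → y ∉ E := by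
  have hm0 : (0 : ℝ) < m := by linarith
  have hA0 : (0 : ℝ) < A := by linarith
  -- a hole of length `l / (3 A)` inside the interval
  obtain ⟨u, hu1, hu2, hu3⟩ : ∃ u : ℝ, s ≤ u ∧ u + l / (3 * A) ≤ s + l ∧
      ∀ y : ℝ, u ≤ y → y < u + l / (3 * A) → y ∉ E := by
    have hle : l / (3 * A) ≤ l / 3 := by
      apply div_le_div_of_nonneg_left hl.le (by norm_num)
      linarith
    by_cases hmid : ∃ c ∈ E, s + l / 3 ≤ c ∧ c < s + l / 3 + l / 3
    · obtain ⟨c, hc, hc1, hc2⟩ := hmid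
      obtain ⟨u, h1, h2, h3⟩ := h c hc (l / 3) (by positivity) (by linarith)
      have e : l / 3 / A = l / (3 * A) := by rw [div_div]
      rw [e] at h2 h3
      exact ⟨u, by linarith, by linarith, h3⟩
    · push Not at hmid
      refine ⟨s + l / 3, by linarith, by linarith, fun y hy1 hy2 hy3 => ?_⟩
      have := hmid y hy3 hy1
      linarith
  -- the first child which begins in the hole
  set i : ℕ := ⌈(u - s) / (l / m)⌉₊ with hi
  have hlm : 0 < l / m := by positivity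
  have h1 : (u - s) / (l / m) ≤ i := Nat.le_ceil _
  have h2 : (i : ℝ) < (u - s) / (l / m) + 1 :=
    Nat.ceil_lt_add_one (div_nonneg (by linarith) hlm.le)
  rw [div_le_iff₀ hlm] at h1
  have h3 : (i : ℝ) * (l / m) < u - s + l / m := by
    have := mul_lt_mul_of_pos_right h2 hlm
    rwa [add_mul, one_mul, div_mul_cancel₀ _ hlm.ne'] at this
  have h4 : 2 * (l / m) ≤ l / (3 * A) := by
    rw [show 2 * (l / (m : ℝ)) = (2 * l) / m by ring, div_le_div_iff₀ hm0 (by positivity)]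
    nlinarith
  refine ⟨i, ?_, fun y hy1 hy2 => hu3 y (by linarith) (by
    have : (i + 1 : ℝ) * (l / m) = i * (l / m) + l / m := by ring
    linarith)⟩
  have h5 : ((i : ℝ) + 1) * (l / m) ≤ l := by
    have : (i + 1 : ℝ) * (l / m) = i * (l / m) + l / m := by ring
    linarith
  have h6 : ((i : ℝ) + 1) ≤ m := by
    have h7 : ((i : ℝ) + 1) * (l / m) ≤ m * (l / m) := by
      rw [mul_div_cancel₀ _ hm0.ne']
      exact h5
    exact le_of_mul_le_mul_right h7 hlm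
  have : i + 1 ≤ m := by exact_mod_cast h6
  omega

open Classical in
/-- the numbers of the intervals of level `k` which meet `E` -/
noncomputable def meets (E : Set ℝ) (z : ℝ) (m k : ℕ) : Finset ℕ :=
  (range (m ^ k)).filter fun j => ∃ y ∈ E, z + j / (m : ℝ) ^ k ≤ y ∧ y < z + (j + 1) / (m : ℝ) ^ k

theorem card_meets_succ {A : ℝ} (hA : 1 ≤ A) {m : ℕ} (hm : 6 * A ≤ m) {E : Set ℝ} {ρ₀ : ℝ}
    (h : ∀ c ∈ E, ∀ ρ : ℝ, 0 < ρ → ρ ≤ ρ₀ → ∃ u : ℝ, c - ρ ≤ u ∧ u + ρ / A ≤ c + ρ ∧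
      ∀ y : ℝ, u ≤ y → y < u + ρ / A → y ∉ E) (z : ℝ) {k : ℕ} (hk : 1 / (m : ℝ) ^ k ≤ ρ₀) :
    (meets E z m (k + 1)).card ≤ (m - 1) * (meets E z m k).card := by
  classical
  have hmR : (6 : ℝ) ≤ m := by linarith
  have hm6 : 6 ≤ m := by exact_mod_cast hmR
  have hm0 : (0 : ℝ) < m := by linarith
  have hpk : (0 : ℝ) < (m : ℝ) ^ k := by positivity
  -- every child has its father in the set
  have hfib : ∀ j ∈ meets E z m (k + 1), j / m ∈ meets E z m k := by
    intro j hj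
    obtain ⟨hj1, y, hyE, hy1, hy2⟩ := Finset.mem_filter.1 hj
    rw [mem_range] at hj1
    refine Finset.mem_filter.2 ⟨mem_range.2 ?_, y, hyE, ?_, ?_⟩
    · rw [Nat.div_lt_iff_lt_mul (by omega)]
      rwa [pow_succ] at hj1
    · refine le_trans ?_ hy1
      have h1 : ((j / m : ℕ) : ℝ) ≤ j / m := Nat.cast_div_le
      have h2 : ((j / m : ℕ) : ℝ) / (m : ℝ) ^ k ≤ (j / m) / (m : ℝ) ^ k := by gcongr
      have e : ((j : ℝ) / m) / (m : ℝ) ^ k = j / (m : ℝ) ^ (k + 1) := by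
        rw [div_div, pow_succ']
      linarith
    · refine lt_of_lt_of_le hy2 ?_
      have h1 : j + 1 ≤ (j / m + 1) * m := by
        have := Nat.div_add_mod j m
        have := Nat.mod_lt j (by omega : 0 < m)
        nlinarith
      have h1' : ((j : ℝ) + 1) ≤ (((j / m : ℕ) : ℝ) + 1) * m := by exact_mod_cast h1
      have h2 : ((j : ℝ) + 1) / (m : ℝ) ^ (k + 1) ≤
          (((j / m : ℕ) : ℝ) + 1) * m / (m : ℝ) ^ (k + 1) := by gcongr
      have e : (((j / m : ℕ) : ℝ) + 1) * m / (m : ℝ) ^ (k + 1) =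
          (((j / m : ℕ) : ℝ) + 1) / (m : ℝ) ^ k := by
        rw [pow_succ]
        field_simp
      linarith
  refine Finset.card_le_mul_card_image_of_maps_to hfib (m - 1) fun b hb => ?_
  -- a free child
  obtain ⟨i, hi, hfree⟩ := free_child hA hm h (s := z + b / (m : ℝ) ^ k)
    (l := 1 / (m : ℝ) ^ k) (by positivity) hk
  have hsub : (meets E z m (k + 1)).filter (fun j => j / m = b) ⊆
      ((range m).erase i).image (fun q => b * m + q) := by
    intro j hj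
    obtain ⟨hj1, hj2⟩ := Finset.mem_filter.1 hj
    obtain ⟨-, y, hyE, hy1, hy2⟩ := Finset.mem_filter.1 hj1
    have hdm := Nat.div_add_mod j m
    have hmod := Nat.mod_lt j (by omega : 0 < m)
    rw [hj2] at hdm
    rw [Finset.mem_image]
    refine ⟨j % m, Finset.mem_erase.2 ⟨?_, mem_range.2 hmod⟩, by rw [mul_comm]; exact hdm⟩
    intro hji
    rw [hji] at hdm
    refine hfree y ?_ ?_ hyE
    · have e : z + (b : ℝ) / (m : ℝ) ^ k + i * (1 / (m : ℝ) ^ k / m) = z + j / (m : ℝ) ^ (k + 1) := by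
        rw [← hdm, pow_succ]
        push_cast
        field_simp
        ring
      rw [e]
      exact hy1
    · have e : z + (b : ℝ) / (m : ℝ) ^ k + (i + 1) * (1 / (m : ℝ) ^ k / m) =
          z + (j + 1) / (m : ℝ) ^ (k + 1) := by
        rw [← hdm, pow_succ]
        push_cast
        field_simp
        ring
      rw [e]
      exact hy2
  refine (Finset.card_le_card hsub).trans (Finset.card_image_le.trans ?_)
  rw [Finset.card_erase_of_mem (mem_range.2 hi), card_range]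

/-- **Holes at all small scales.** The dimension is at most `log (m - 1) / log m`. -/
theorem dimH_of_holes {A : ℝ} (hA : 1 ≤ A) : ∃ D : ℝ≥0, D < 1 ∧ ∀ (E : Set ℝ) (ρ₀ : ℝ), 0 < ρ₀ →
    (∀ c ∈ E, ∀ ρ : ℝ, 0 < ρ → ρ ≤ ρ₀ → ∃ u : ℝ, c - ρ ≤ u ∧ u + ρ / A ≤ c + ρ ∧
      ∀ y : ℝ, u ≤ y → y < u + ρ / A → y ∉ E) → dimH E ≤ D := by
  classical
  obtain ⟨m, hm⟩ := exists_nat_ge (6 * A)
  have hmR : (6 : ℝ) ≤ m := by linarith
  have hm6 : 6 ≤ m := by exact_mod_cast hmR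
  have hm0 : (0 : ℝ) < m := by linarith
  have hlm : 0 < Real.log m := Real.log_pos (by linarith)
  have hm1 : (1 : ℝ) < (m : ℝ) - 1 := by linarith
  have hlm1 : 0 < Real.log ((m : ℝ) - 1) := Real.log_pos hm1
  set d : ℝ := Real.log ((m : ℝ) - 1) / Real.log m with hd
  have hd0 : 0 < d := by positivity
  have hd1 : d < 1 := by
    rw [hd, div_lt_one hlm]
    exact Real.log_lt_log (by linarith) (by linarith)
  have hmd : (m : ℝ) ^ d = m - 1 := by
    rw [Real.rpow_def_of_pos hm0, hd, mul_div_cancel₀ _ hlm.ne', Real.exp_log (by linarith)]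
  refine ⟨d.toNNReal, ?_, fun E ρ₀ hρ₀ h => ?_⟩
  · rw [← NNReal.coe_lt_coe, Real.coe_toNNReal _ hd0.le]
    simpa using hd1
  -- pieces of length one
  have hE : E = ⋃ z : ℤ, E ∩ Set.Ico (z : ℝ) (z + 1) := by
    ext y
    simp only [Set.mem_iUnion, Set.mem_inter_iff, Set.mem_Ico]
    exact ⟨fun hy => ⟨⌊y⌋, hy, Int.floor_le y, Int.lt_floor_add_one y⟩, fun ⟨z, hy, _⟩ => hy⟩
  rw [hE, dimH_iUnion]
  refine iSup_le fun z => ?_
  set E' : Set ℝ := E ∩ Set.Ico (z : ℝ) (z + 1) with hE'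
  have h' : ∀ c ∈ E', ∀ ρ : ℝ, 0 < ρ → ρ ≤ ρ₀ → ∃ u : ℝ, c - ρ ≤ u ∧ u + ρ / A ≤ c + ρ ∧
      ∀ y : ℝ, u ≤ y → y < u + ρ / A → y ∉ E' := by
    intro c hc ρ h1 h2
    obtain ⟨u, h3, h4, h5⟩ := h c hc.1 ρ h1 h2
    exact ⟨u, h3, h4, fun y hy1 hy2 hy3 => h5 y hy1 hy2 hy3.1⟩
  apply dimH_le_of_hausdorffMeasure_ne_top
  rw [Real.coe_toNNReal _ hd0.le]
  -- the first level
  obtain ⟨k₀, hk₀⟩ : ∃ k₀ : ℕ, ∀ k, k₀ ≤ k → 1 / (m : ℝ) ^ k ≤ ρ₀ := by
    obtain ⟨k₀, hk₀⟩ := exists_pow_lt_of_lt_one hρ₀ (by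
      rw [div_lt_one hm0]; linarith : (1 : ℝ) / m < 1)
    refine ⟨k₀, fun k hk => ?_⟩
    rw [one_div_pow] at hk₀
    refine le_trans ?_ hk₀.le
    apply one_div_le_one_div_of_le (by positivity)
    exact pow_le_pow_right₀ (by linarith) hk
  have hcard : ∀ i : ℕ, (meets E' z m (k₀ + i)).card ≤ (m - 1) ^ i * (meets E' z m k₀).card := by
    intro i
    induction i with
    | zero => simp
    | succ i ih =>
      have h1 := card_meets_succ hA hm h' z (hk₀ (k₀ + i) (Nat.le_add_right _ _))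
      rw [← add_assoc]
      refine h1.trans ?_
      rw [pow_succ', mul_assoc]
      exact Nat.mul_le_mul_left _ ih
  have hr : Tendsto (fun i : ℕ => ENNReal.ofReal (1 / (m : ℝ) ^ (k₀ + i))) atTop (𝓝 0) := by
    rw [← ENNReal.ofReal_zero]
    apply ENNReal.tendsto_ofReal
    have h1 : Tendsto (fun i : ℕ => (1 / (m : ℝ)) ^ i) atTop (𝓝 0) :=
      tendsto_pow_atTop_nhds_zero_of_lt_one (by positivity) (by rw [div_lt_one hm0]; linarith)
    have h2 := (tendsto_add_atTop_iff_nat k₀).2 h1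
    refine h2.congr fun i => ?_
    rw [one_div_pow, add_comm]
  have hdiam : ∀ (i j : ℕ), Metric.ediam (Set.Ico ((z : ℝ) + j / (m : ℝ) ^ (k₀ + i))
      ((z : ℝ) + (j + 1) / (m : ℝ) ^ (k₀ + i))) = ENNReal.ofReal (1 / (m : ℝ) ^ (k₀ + i)) := by
    intro i j
    have hlt : (z : ℝ) + j / (m : ℝ) ^ (k₀ + i) < (z : ℝ) + (j + 1) / (m : ℝ) ^ (k₀ + i) := by
      gcongr
      linarith
    rw [Real.ediam_Ico]
    congr 1
    ring
  refine ne_top_of_le_ne_top ?_ (Measure.hausdorffMeasure_le_liminf_sum d E'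
    (l := atTop) (ι := fun i : ℕ => {j // j ∈ meets E' z m (k₀ + i)})
    (fun i => ENNReal.ofReal (1 / (m : ℝ) ^ (k₀ + i))) hr
    (fun i j => Set.Ico ((z : ℝ) + (j : ℕ) / (m : ℝ) ^ (k₀ + i))
      ((z : ℝ) + ((j : ℕ) + 1) / (m : ℝ) ^ (k₀ + i)))
    (Eventually.of_forall fun i j => (hdiam i j).le) (Eventually.of_forall fun i => ?_))
  · -- the sum is bounded
    have hbound : ∀ i : ℕ, ∑ j : {j // j ∈ meets E' z m (k₀ + i)},
        Metric.ediam (Set.Ico ((z : ℝ) + (j : ℕ) / (m : ℝ) ^ (k₀ + i))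
          ((z : ℝ) + ((j : ℕ) + 1) / (m : ℝ) ^ (k₀ + i))) ^ d ≤
        ((meets E' z m k₀).card : ℝ≥0∞) := by
      intro i
      have h1 : ∀ j : {j // j ∈ meets E' z m (k₀ + i)},
          Metric.ediam (Set.Ico ((z : ℝ) + (j : ℕ) / (m : ℝ) ^ (k₀ + i))
          ((z : ℝ) + ((j : ℕ) + 1) / (m : ℝ) ^ (k₀ + i))) ^ d =
          ENNReal.ofReal (1 / ((m : ℝ) - 1) ^ (k₀ + i)) := by
        intro j
        rw [hdiam, ENNReal.ofReal_rpow_of_pos (by positivity)]
        congr 1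
        rw [one_div, one_div, Real.inv_rpow (by positivity), ← Real.rpow_natCast (m : ℝ),
          ← Real.rpow_mul hm0.le, mul_comm ((k₀ + i : ℕ) : ℝ) d, Real.rpow_mul hm0.le, hmd,
          Real.rpow_natCast]
      rw [Finset.sum_congr rfl fun j _ => h1 j, Finset.sum_const, Finset.card_univ,
        Fintype.card_coe, nsmul_eq_mul]
      have h2 : ((meets E' z m (k₀ + i)).card : ℝ) * (1 / ((m : ℝ) - 1) ^ (k₀ + i)) ≤
          (meets E' z m k₀).card := by
        have h3 : ((meets E' z m (k₀ + i)).card : ℝ) ≤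
            ((m : ℝ) - 1) ^ i * (meets E' z m k₀).card := by
          have h4 := hcard i
          have h5 : ((m - 1 : ℕ) : ℝ) = (m : ℝ) - 1 := Nat.cast_pred (by omega)
          rw [← h5]
          exact_mod_cast h4
        have h8 : (0 : ℝ) < (m : ℝ) - 1 := by linarith
        rw [mul_one_div, div_le_iff₀ (pow_pos h8 _), pow_add]
        have h6 : (1 : ℝ) ≤ ((m : ℝ) - 1) ^ k₀ := one_le_pow₀ hm1.le
        have h7 : (0 : ℝ) ≤ ((m : ℝ) - 1) ^ i * (meets E' z m k₀).card :=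
          mul_nonneg (pow_nonneg h8.le _) (Nat.cast_nonneg _)
        nlinarith
      calc ((meets E' z m (k₀ + i)).card : ℝ≥0∞) * ENNReal.ofReal (1 / ((m : ℝ) - 1) ^ (k₀ + i))
          = ENNReal.ofReal (((meets E' z m (k₀ + i)).card : ℝ) *
              (1 / ((m : ℝ) - 1) ^ (k₀ + i))) := by
            rw [ENNReal.ofReal_mul (Nat.cast_nonneg _), ENNReal.ofReal_natCast]
        _ ≤ ENNReal.ofReal ((meets E' z m k₀).card : ℝ) := ENNReal.ofReal_le_ofReal h2
        _ = _ := ENNReal.ofReal_natCast _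
    refine ne_top_of_le_ne_top (ENNReal.natCast_ne_top (meets E' z m k₀).card) ?_
    refine (liminf_le_liminf (Eventually.of_forall hbound)).trans ?_
    rw [liminf_const]
  · -- the cover
    intro y hy
    have hpk : (0 : ℝ) < (m : ℝ) ^ (k₀ + i) := by positivity
    have hy0 : 0 ≤ (y - z) * (m : ℝ) ^ (k₀ + i) := by
      have := hy.2.1
      apply mul_nonneg (by linarith) hpk.le
    set j : ℕ := ⌊(y - z) * (m : ℝ) ^ (k₀ + i)⌋₊ with hj
    have h1 : (j : ℝ) ≤ (y - z) * (m : ℝ) ^ (k₀ + i) := Nat.floor_le hy0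
    have h2 : (y - z) * (m : ℝ) ^ (k₀ + i) < j + 1 := Nat.lt_floor_add_one _
    have h3 : (z : ℝ) + j / (m : ℝ) ^ (k₀ + i) ≤ y := by
      have : (j : ℝ) / (m : ℝ) ^ (k₀ + i) ≤ y - z := by rwa [div_le_iff₀ hpk]
      linarith
    have h4 : y < (z : ℝ) + (j + 1) / (m : ℝ) ^ (k₀ + i) := by
      have : y - z < ((j : ℝ) + 1) / (m : ℝ) ^ (k₀ + i) := by rwa [lt_div_iff₀ hpk]
      linarith
    have h5 : j < m ^ (k₀ + i) := by
      have h6 : (y - z) * (m : ℝ) ^ (k₀ + i) < 1 * (m : ℝ) ^ (k₀ + i) := by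
        apply mul_lt_mul_of_pos_right _ hpk
        have := hy.2.2
        linarith
      have h7 : (j : ℝ) < ((m ^ (k₀ + i) : ℕ) : ℝ) := by
        push_cast
        linarith
      exact_mod_cast h7
    rw [Set.mem_iUnion]
    exact ⟨⟨j, Finset.mem_filter.2 ⟨mem_range.2 h5, y, hy, h3, h4⟩⟩, h3, h4⟩

end Pool.Agent.H590.CC
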