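import Mathlib
import Pool.Agent.H590.CC.Path
import Pool.Agent.H590.CC.Holes

/-!
Moving frames: words at the places of almost all moving frames.
-/

set_option autoImplicit false

open Finset Filter Topology MeasureTheory
open scoped ENNReal NNReal

namespace Pool.Agent.H590.CC

open Pool.Agent.H429R2.Auto
open Pool.Agent.H706R2 (dZ)

/-- the configuration seen from the cell `p` -/
def view (y : Conf) (p : ℤ) : Conf := fun i => y (p + i)

/-- words give density -/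
theorem dense_of_words {y : ℕ → Conf} {p : ℕ → ℤ}
    (h : ∀ (w : List (Fin 6)) (m : ℕ), ∃ n, ShowsAt (y n) w (p n - m)) :
    Dense (Set.range fun n : ℕ => view (y n) (p n)) := by
  rw [dense_iff_inter_open]
  intro U hU ⟨z, hz⟩
  obtain ⟨I, u, hu1, hu2⟩ := isOpen_pi_iff.1 hU z hz
  obtain ⟨m, hm⟩ : ∃ m : ℕ, ∀ i ∈ I, i.natAbs ≤ m :=
    ⟨I.sup Int.natAbs, fun i hi => Finset.le_sup (f := Int.natAbs) hi⟩
  obtain ⟨n, hn⟩ := h ((List.range (2 * m + 1)).map fun q : ℕ => z ((q : ℤ) - m)) m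
  refine ⟨view (y n) (p n), hu2 fun i hi => ?_, n, rfl⟩
  have h1 := hm i hi
  have h2 := hn (i + m).toNat (by
    rw [List.length_map, List.length_range]
    omega)
  rw [List.getElem_map, List.getElem_range] at h2
  have e1 : p n - (m : ℤ) + ((i + m).toNat : ℤ) = p n + i := by omega
  have e2 : (((i + m).toNat : ℕ) : ℤ) - m = i := by omega
  rw [e1, e2] at h2
  show y n (p n + i) ∈ u i
  rw [h2]
  exact (hu1 i hi).2

theorem countable_fin : {x : Conf | IsFin x ∧ x ≠ 0}.Countable := by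
  have h : {x : Conf | IsFin x ∧ x ≠ 0} ⊆ Set.range (fun v : ℤ →₀ Fin 6 => (v : ℤ → Fin 6)) := by
    rintro x ⟨hx, -⟩
    refine ⟨Finsupp.ofSupportFinite x ?_, ?_⟩
    · exact hx
    · rfl
  exact (Set.countable_range _).mono h

/-- the steps of a frame -/
theorem frame_steps {K c : ℝ} {f g : ℕ → ℝ} (hf : ∀ n, |f (n + 1) - f n| ≤ K)
    (hg : ∀ n, |g (n + 1) - g n| ≤ K) (n : ℕ) :
    |⌊c * f (n + 1) + g (n + 1)⌋ - ⌊c * f n + g n⌋| ≤ (⌈(|c| + 1) * K + 1⌉₊ : ℕ) := by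
  have h1 : |(c * f (n + 1) + g (n + 1)) - (c * f n + g n)| ≤ (|c| + 1) * K := by
    have e : (c * f (n + 1) + g (n + 1)) - (c * f n + g n) =
        c * (f (n + 1) - f n) + (g (n + 1) - g n) := by ring
    rw [e]
    have h2 : |c * (f (n + 1) - f n)| ≤ |c| * K := by
      rw [abs_mul]
      exact mul_le_mul_of_nonneg_left (hf n) (abs_nonneg c)
    have h3 := abs_add_le (c * (f (n + 1) - f n)) (g (n + 1) - g n)
    have h4 := hg n
    linarith
  have h2 := abs_le.1 h1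
  have h3 : (|c| + 1) * K + 1 ≤ (⌈(|c| + 1) * K + 1⌉₊ : ℕ) := Nat.le_ceil _
  have a1 := Int.floor_le (c * f (n + 1) + g (n + 1))
  have a2 := Int.lt_floor_add_one (c * f (n + 1) + g (n + 1))
  have b1 := Int.floor_le (c * f n + g n)
  have b2 := Int.lt_floor_add_one (c * f n + g n)
  have h4 : |((⌊c * f (n + 1) + g (n + 1)⌋ - ⌊c * f n + g n⌋ : ℤ) : ℝ)| ≤
      (⌈(|c| + 1) * K + 1⌉₊ : ℕ) := by
    push_cast
    rw [abs_le]
    constructor <;> linarith [h2.1, h2.2]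
  exact_mod_cast h4

/-- one word, one configuration -/
theorem null_word (x : Conf) (hx : IsFin x) (hx0 : x ≠ 0) (w : List (Fin 6)) {K : ℝ}
    {f g : ℕ → ℝ} (hf : ∀ n, |f (n + 1) - f n| ≤ K) (hg : ∀ n, |g (n + 1) - g n| ≤ K)
    (hft : Tendsto f atTop atTop) (I : Set ℝ)
    (h1 : ∀ c ∈ I, ∀ B : ℝ, ∃ n : ℕ, B < n - (c * f n + g n))
    (h2 : ∀ c ∈ I, ∀ B : ℝ, ∃ n : ℕ, B < c * f n + g n + n * Real.logb 6 (3 / 2)) (M : ℕ) :
    volume {c : ℝ | c ∈ I ∧ ∀ n, M ≤ n → ¬ ShowsAt (F^[n] x) w ⌊c * f n + g n⌋} = 0 := by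
  refine null_of_holes _ ?_
  rintro c ⟨hcI, hc⟩
  obtain ⟨T, hT⟩ := near_path' w (⌈(|c| + 1) * K + 1⌉₊)
  have hT' := hT x hx hx0 (fun n => ⌊c * f n + g n⌋) (frame_steps hf hg)
    (fun B => by
      obtain ⟨n, hn⟩ := h1 c hcI B
      refine ⟨n, ?_⟩
      have := Int.floor_le (c * f n + g n)
      linarith)
    (fun B => by
      obtain ⟨n, hn⟩ := h2 c hcI (B + 1)
      refine ⟨n, ?_⟩
      have := Int.lt_floor_add_one (c * f n + g n)
      linarith)
  refine ⟨T + 2, by positivity, fun ρ₀ hρ₀ => ?_⟩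
  obtain ⟨n₁, hn₁⟩ := eventually_atTop.1 (hft.eventually_gt_atTop ((T + 2) / ρ₀))
  obtain ⟨n, j, hn, hj, hs⟩ := hT' (max M n₁)
  have hfn := hn₁ n ((le_max_right _ _).trans hn)
  have hf0 : 0 < f n := lt_of_le_of_lt (by positivity) hfn
  have hj' : |(j : ℝ) - ⌊c * f n + g n⌋| ≤ T := by exact_mod_cast hj
  have hj2 := abs_le.1 hj'
  have b1 := Int.floor_le (c * f n + g n)
  have b2 := Int.lt_floor_add_one (c * f n + g n)
  have e : ((T : ℝ) + 2) / f n / (T + 2) = 1 / f n := by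
    field_simp
  refine ⟨(T + 2) / f n, by positivity, ?_, (j - g n) / f n, ?_, ?_, ?_⟩
  · rw [div_lt_iff₀ hρ₀] at hfn
    rw [div_lt_iff₀ hf0]
    linarith
  · rw [sub_le_iff_le_add, ← add_div, le_div_iff₀ hf0]
    linarith [hj2.1]
  · rw [e, ← add_div, div_le_iff₀ hf0, add_mul, div_mul_cancel₀ _ hf0.ne']
    linarith [hj2.2]
  · intro y hy1 hy2 hy
    rw [e, ← add_div, lt_div_iff₀ hf0] at hy2
    rw [div_le_iff₀ hf0] at hy1
    have h3 : ⌊y * f n + g n⌋ = j := by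
      rw [Int.floor_eq_iff]
      constructor <;> linarith
    refine hy.2 n ((le_max_left _ _).trans hn) ?_
    rw [h3]
    exact hs

/-- **Almost all moving frames.** -/
theorem frames {K : ℝ} {f g : ℕ → ℝ} (hf : ∀ n, |f (n + 1) - f n| ≤ K)
    (hg : ∀ n, |g (n + 1) - g n| ≤ K) (hft : Tendsto f atTop atTop) (I : Set ℝ)
    (h1 : ∀ c ∈ I, ∀ B : ℝ, ∃ n : ℕ, B < n - (c * f n + g n))
    (h2 : ∀ c ∈ I, ∀ B : ℝ, ∃ n : ℕ, B < c * f n + g n + n * Real.logb 6 (3 / 2)) :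
    ∀ᵐ c : ℝ, c ∈ I → ∀ x : Conf, IsFin x → x ≠ 0 →
      Dense (Set.range fun n : ℕ => view (F^[n] x) ⌊c * f n + g n⌋) := by
  have h3 : ∀ᵐ c : ℝ, ∀ x : Conf, ∀ _ : x ∈ {x : Conf | IsFin x ∧ x ≠ 0},
      ∀ (w : List (Fin 6)) (m : ℕ), c ∈ I → ∃ n : ℕ, ShowsAt (F^[n] x) w ⌊c * f n + (g n - m)⌋ := by
    rw [ae_ball_iff countable_fin]
    rintro x ⟨hx, hx0⟩
    rw [ae_all_iff]
    intro w
    rw [ae_all_iff]
    intro m
    have h4 := null_word x hx hx0 w hf (g := fun n => g n - m)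
      (fun n => by simpa using hg n) hft I
      (fun c hc B => by
        obtain ⟨n, hn⟩ := h1 c hc B
        have : (0 : ℝ) ≤ m := Nat.cast_nonneg m
        exact ⟨n, by linarith⟩)
      (fun c hc B => by
        obtain ⟨n, hn⟩ := h2 c hc (B + m)
        exact ⟨n, by linarith⟩) 0
    rw [ae_iff]
    refine measure_mono_null ?_ h4
    intro c hc
    simp only [Set.mem_ofPred_eq, Classical.not_imp, not_exists] at hc
    exact ⟨hc.1, fun n _ => hc.2 n⟩
  filter_upwards [h3] with c hc hcI x hx hx0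
  refine dense_of_words fun w m => ?_
  obtain ⟨n, hn⟩ := hc x ⟨hx, hx0⟩ w m hcI
  refine ⟨n, ?_⟩
  have e : c * f n + (g n - m) = c * f n + g n - (m : ℤ) := by push_cast; ring
  rw [e, Int.floor_sub_intCast] at hn
  exact hn

end Pool.Agent.H590.CC
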