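import Mathlib
import Pool.Agent.H590.CC.Dir

/-!
Random moving frames.
-/

set_option autoImplicit false

open Finset Filter Topology MeasureTheory ProbabilityTheory

namespace Pool.Agent.H590.CC

open Pool.Agent.H429R2.Auto
open Pool.Agent.H706R2 (dZ)

section borel

variable {Ω : Type*} {m0 : MeasurableSpace Ω} {μ : Measure Ω} [IsProbabilityMeasure μ]
  {ℱ : Filtration ℕ m0}

/-- one step -/
theorem one_step {A S : ℕ → Set Ω} (hA : ∀ n, MeasurableSet[ℱ n] (A n))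
    (hS : ∀ n, MeasurableSet[ℱ (n + 1)] (S n)) {c : ℝ} (hc : 0 < c)
    (hcS : ∀ n, ∀ᵐ ω ∂μ, c ≤ (μ[(S n).indicator (fun _ => (1 : ℝ)) | ℱ n]) ω) :
    ∀ᵐ ω ∂μ, (∃ᶠ n in atTop, ω ∈ A n) → ∃ᶠ n in atTop, ω ∈ A n ∧ ω ∈ S n := by
  classical
  set s : ℕ → Set Ω := fun n => Nat.casesOn n ∅ (fun k => A k ∩ S k) with hs
  have hsm : ∀ n, MeasurableSet[ℱ n] (s n) := by
    intro n
    cases n with
    | zero => exact @MeasurableSet.empty _ (ℱ 0)
    | succ k => exact (ℱ.mono (Nat.le_succ k) _ (hA k)).inter (hS k)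
  have h1 := ae_mem_limsup_atTop_iff μ hsm
  have h2 : ∀ᵐ ω ∂μ, ∀ n, (A n).indicator (fun _ => c) ω ≤
      (μ[(s (n + 1)).indicator (1 : Ω → ℝ) | ℱ n]) ω := by
    rw [ae_all_iff]
    intro n
    have h3 : (s (n + 1)).indicator (1 : Ω → ℝ) =
        (A n).indicator ((S n).indicator (fun _ => (1 : ℝ))) := by
      rw [Set.indicator_indicator]
      rfl
    have h4 : Integrable ((S n).indicator (fun _ => (1 : ℝ))) μ :=
      (integrable_const 1).indicator (ℱ.le _ _ (hS n))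
    have h5 := condExp_indicator (m := ℱ n) h4 (hA n)
    rw [h3]
    filter_upwards [h5, hcS n] with ω h6 h7
    rw [h6]
    by_cases hω : ω ∈ A n
    · rw [Set.indicator_of_mem hω, Set.indicator_of_mem hω]
      exact h7
    · rw [Set.indicator_of_notMem hω, Set.indicator_of_notMem hω]
  filter_upwards [h1, h2] with ω h3 h4 h5
  have h6 : Tendsto (fun n => ∑ k ∈ range n, (A k).indicator (fun _ => c) ω) atTop atTop := by
    have hmono : Monotone fun n => ∑ k ∈ range n, (A k).indicator (fun _ => c) ω := by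
      refine monotone_nat_of_le_succ fun n => ?_
      rw [Finset.sum_range_succ]
      have : 0 ≤ (A n).indicator (fun _ => c) ω := Set.indicator_nonneg (fun _ _ => hc.le) ω
      linarith
    refine tendsto_atTop_atTop_of_monotone hmono fun b => ?_
    -- many times
    have h7 : ∀ N : ℕ, ∃ n, (N : ℝ) * c ≤ ∑ k ∈ range n, (A k).indicator (fun _ => c) ω := by
      intro N
      induction N with
      | zero => exact ⟨0, by simp⟩
      | succ N ih =>
        obtain ⟨n, hn⟩ := ih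
        obtain ⟨k, hk, hkA⟩ := (frequently_atTop.1 h5) n
        refine ⟨k + 1, ?_⟩
        rw [Finset.sum_range_succ, Set.indicator_of_mem hkA]
        have := hmono hk
        simp only at this
        push_cast
        linarith
    obtain ⟨N, hN⟩ := exists_nat_ge (b / c)
    obtain ⟨n, hn⟩ := h7 N
    refine ⟨n, le_trans ?_ hn⟩
    rwa [div_le_iff₀ hc] at hN
  have h7 := h3.2 (tendsto_atTop_mono (fun n => Finset.sum_le_sum fun k _ => h4 k) h6)
  rw [mem_limsup_iff_frequently_mem] at h7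
  rw [frequently_atTop] at h7 ⊢
  intro a
  obtain ⟨b, hb, hbs⟩ := h7 (a + 1)
  obtain ⟨k, rfl⟩ : ∃ k, b = k + 1 := ⟨b - 1, by omega⟩
  exact ⟨k, by omega, hbs.1, hbs.2⟩

/-- several steps -/
theorem several_steps {s : ℕ → Ω → ℤ} (hs : ∀ n, Measurable[ℱ (n + 1)] (s n)) {c : ℝ} (hc : 0 < c)
    (L : ℕ) : ∀ (σ : ℕ → ℤ), (∀ i < L, ∀ n, ∀ᵐ ω ∂μ, c ≤
      (μ[({ω | s n ω = σ i}).indicator (fun _ => (1 : ℝ)) | ℱ n]) ω) →
    ∀ A : ℕ → Set Ω, (∀ n, MeasurableSet[ℱ n] (A n)) →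
      ∀ᵐ ω ∂μ, (∃ᶠ n in atTop, ω ∈ A n) → ∃ᶠ n in atTop, ω ∈ A n ∧ ∀ i < L, s (n + i) ω = σ i := by
  induction L with
  | zero =>
    intro σ _ A _
    refine Eventually.of_forall fun ω h => ?_
    simpa using h
  | succ L ih =>
    intro σ hσ A hA
    have hSm : ∀ n, MeasurableSet[ℱ (n + 1)] {ω | s n ω = σ 0} := fun n =>
      hs n (measurableSet_singleton (σ 0))
    have h1 := one_step (μ := μ) hA hSm hc (hσ 0 (Nat.succ_pos L))
    have h2 := ih (fun i => σ (i + 1)) (fun i hi => hσ (i + 1) (Nat.succ_lt_succ hi))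
      (fun n => Nat.casesOn n ∅ (fun k => A k ∩ {ω | s k ω = σ 0})) (fun n => by
        cases n with
        | zero => exact @MeasurableSet.empty _ (ℱ 0)
        | succ k => exact (ℱ.mono (Nat.le_succ k) _ (hA k)).inter (hSm k))
    filter_upwards [h1, h2] with ω h3 h4 h5
    have h6 := h4 (by
      rw [frequently_atTop]
      intro a
      obtain ⟨k, hk, hk2⟩ := (frequently_atTop.1 (h3 h5)) a
      exact ⟨k + 1, by omega, hk2⟩)
    rw [frequently_atTop] at h6 ⊢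
    intro a
    obtain ⟨n, hn, hn2, hn3⟩ := h6 (a + 1)
    obtain ⟨k, rfl⟩ : ∃ k, n = k + 1 := ⟨n - 1, by omega⟩
    refine ⟨k, by omega, hn2.1, fun i hi => ?_⟩
    cases i with
    | zero => exact hn2.2
    | succ i =>
      have := hn3 i (by omega)
      rw [← this]
      congr 1
      ring

end borel

/-- the path of the steps -/
def pathOf {Ω : Type*} (s : ℕ → Ω → ℤ) (n : ℕ) (ω : Ω) : ℤ := ∑ i ∈ range n, s i ω

theorem pathOf_pattern {Ω : Type*} {s : ℕ → Ω → ℤ} {n k t : ℕ} {ω : Ω}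
    (h : ∀ i < k + t, s (n + i) ω = if i < k then 1 else -1) :
    pathOf s (n + k + t) ω = pathOf s n ω + k - t := by
  unfold pathOf
  rw [add_assoc, Finset.sum_range_add]
  have h1 : ∑ x ∈ range (k + t), s (n + x) ω = ∑ x ∈ range (k + t), (if x < k then (1 : ℤ) else -1) :=
    Finset.sum_congr rfl fun i hi => h i (mem_range.1 hi)
  rw [h1, Finset.sum_range_add]
  have h2 : ∑ x ∈ range k, (if x < k then (1 : ℤ) else -1) = k := by
    rw [Finset.sum_congr rfl fun x hx => if_pos (mem_range.1 hx)]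
    simp
  have h3 : ∑ x ∈ range t, (if k + x < k then (1 : ℤ) else -1) = -t := by
    rw [Finset.sum_congr rfl fun x _ => if_neg (by omega)]
    simp
  rw [h2, h3]
  ring

variable {Ω : Type*} {m0 : MeasurableSpace Ω} {μ : Measure Ω} [IsProbabilityMeasure μ]
  {ℱ : Filtration ℕ m0}

theorem measurable_pathOf {s : ℕ → Ω → ℤ} (hs : ∀ n, Measurable[ℱ (n + 1)] (s n)) (n : ℕ) :
    Measurable[ℱ n] (pathOf s n) := by
  unfold pathOf
  refine Finset.measurable_sum _ fun i hi => ?_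
  exact (hs i).mono (ℱ.mono (Nat.succ_le_of_lt (mem_range.1 hi))) le_rfl

/-- **Random frames**, one configuration, one word. -/
theorem random_word {s : ℕ → Ω → ℤ} (hs : ∀ n, Measurable[ℱ (n + 1)] (s n)) {c : ℝ} (hc : 0 < c)
    (h1 : ∀ n, ∀ᵐ ω ∂μ, c ≤ (μ[({ω | s n ω = 1}).indicator (fun _ => (1 : ℝ)) | ℱ n]) ω)
    (h2 : ∀ n, ∀ᵐ ω ∂μ, c ≤ (μ[({ω | s n ω = -1}).indicator (fun _ => (1 : ℝ)) | ℱ n]) ω)
    {K : ℕ} (hK : ∀ n ω, |s n ω| ≤ K) (x : Conf) (hx : IsFin x) (hx0 : x ≠ 0) (w : List (Fin 6))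
    (m : ℕ) :
    ∀ᵐ ω ∂μ, (∀ B : ℝ, ∃ n : ℕ, B < n - pathOf s n ω) →
      (∀ B : ℝ, ∃ n : ℕ, B < pathOf s n ω + n * Real.logb 6 (3 / 2)) →
      ∃ᶠ n in atTop, ShowsAt (F^[n] x) w (pathOf s n ω - m) := by
  classical
  set r : ℝ := 1 / (2 * 3 ^ 1 * (6 : ℝ) ^ K) with hrdef
  have hr0 : 0 < r := by positivity
  have hr : 2 * 3 ^ 1 * (6 : ℝ) ^ K * r ≤ 1 := by
    rw [hrdef]
    apply le_of_eq
    field_simp
  obtain ⟨N, hN, T, hT, hhit⟩ := hit w (d := 1) le_rfl hr0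
  obtain ⟨a, k0, hrep, ha, -⟩ := exists_rep hx
  have ha := ha hx0
  have hβ : (0 : ℝ) < (a : ℝ) / 6 ^ k0 := by positivity
  -- the patterns
  have hpat : ∀ k t : ℕ, ∀ᵐ ω ∂μ,
      (∃ᶠ n in atTop, ω ∈ {ω | ShowsAt (F^[n + k + t] x) w (pathOf s n ω - m + k - t)}) →
        ∃ᶠ n in atTop, ω ∈ {ω | ShowsAt (F^[n + k + t] x) w (pathOf s n ω - m + k - t)} ∧
          ∀ i < k + t, s (n + i) ω = if i < k then 1 else -1 := by
    intro k t
    refine several_steps (μ := μ) hs hc (k + t) (fun i => if i < k then 1 else -1) ?_ _ ?_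
    · intro i _ n
      by_cases hik : i < k
      · simp only [hik, if_true]
        exact h1 n
      · simp only [hik, if_false]
        exact h2 n
    · intro n
      exact measurable_pathOf hs n (MeasurableSet.of_discrete
        (s := {q : ℤ | ShowsAt (F^[n + k + t] x) w (q - m + k - t)}))
  have hpat' : ∀ᵐ ω ∂μ, ∀ k t : ℕ,
      (∃ᶠ n in atTop, ω ∈ {ω | ShowsAt (F^[n + k + t] x) w (pathOf s n ω - m + k - t)}) →
        ∃ᶠ n in atTop, ω ∈ {ω | ShowsAt (F^[n + k + t] x) w (pathOf s n ω - m + k - t)} ∧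
          ∀ i < k + t, s (n + i) ω = if i < k then 1 else -1 := by
    rw [ae_all_iff]
    intro k
    rw [ae_all_iff]
    exact hpat k
  filter_upwards [hpat'] with ω hω hp1 hp2
  -- far cells on the shifted path
  have hfar := far_on_path (d := 1) (K := K) hr0 hr hβ hN 0
    (p := fun n => pathOf s n ω - 2 - m)
    (fun n => by
      have e : pathOf s (n + 1) ω - 2 - m - (pathOf s n ω - 2 - m) = s n ω := by
        unfold pathOf
        rw [Finset.sum_range_succ]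
        ring
      rw [e]
      exact hK n ω)
    (fun B => by
      obtain ⟨n, hn⟩ := hp1 B
      refine ⟨n, ?_⟩
      push_cast
      have : (0 : ℝ) ≤ m := Nat.cast_nonneg m
      linarith)
    (fun B => by
      obtain ⟨n, hn⟩ := hp2 (B + 2 + m)
      refine ⟨n, ?_⟩
      rw [zero_add, one_mul]
      push_cast
      linarith)
  have h3 : ∃ᶠ n in atTop, ∃ kt ∈ range (T + 1) ×ˢ range (T + 1),
      ShowsAt (F^[n + kt.1 + kt.2] x) w (pathOf s n ω - m + kt.1 - kt.2) := by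
    rw [frequently_atTop]
    intro n₀
    obtain ⟨n, hn, hn2⟩ := hfar n₀
    rw [zero_add, one_mul] at hn2
    obtain ⟨t, k, ht, hk, hsh⟩ := hhit x _ hβ.le hrep n _ hn2
    rw [one_mul, one_mul] at hsh
    refine ⟨n, hn, (k, t), Finset.mem_product.2 ⟨mem_range.2 (by omega), mem_range.2 (by omega)⟩, ?_⟩
    have e : pathOf s n ω - 2 - (m : ℤ) + ((1 : ℕ) : ℤ) * k - ((1 : ℕ) : ℤ) * t + 2 =
        pathOf s n ω - m + k - t := by push_cast; ring
    rw [e] at hsh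
    exact hsh
  have h4 : ∃ kt ∈ range (T + 1) ×ˢ range (T + 1), ∃ᶠ n in atTop,
      ShowsAt (F^[n + kt.1 + kt.2] x) w (pathOf s n ω - m + kt.1 - kt.2) := by
    by_contra hcon
    push Not at hcon
    have h5 := (Finset.eventually_all _).2 hcon
    obtain ⟨n, ⟨kt, hkt1, hkt2⟩, hn⟩ := (h3.and_eventually h5).exists
    exact hn kt hkt1 hkt2
  obtain ⟨⟨k, t⟩, -, h5⟩ := h4
  have h6 := hω k t h5
  rw [frequently_atTop] at h6 ⊢
  intro n₀
  obtain ⟨n, hn, hn2, hn3⟩ := h6 n₀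
  refine ⟨n + k + t, by omega, ?_⟩
  rw [pathOf_pattern hn3]
  have e : pathOf s n ω + k - t - m = pathOf s n ω - m + k - t := by ring
  rw [e]
  exact hn2

/-- **Random frames.** -/
theorem random_frames {s : ℕ → Ω → ℤ} (hs : ∀ n, Measurable[ℱ (n + 1)] (s n)) {c : ℝ} (hc : 0 < c)
    (h1 : ∀ n, ∀ᵐ ω ∂μ, c ≤ (μ[({ω | s n ω = 1}).indicator (fun _ => (1 : ℝ)) | ℱ n]) ω)
    (h2 : ∀ n, ∀ᵐ ω ∂μ, c ≤ (μ[({ω | s n ω = -1}).indicator (fun _ => (1 : ℝ)) | ℱ n]) ω)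
    {K : ℕ} (hK : ∀ n ω, |s n ω| ≤ K) :
    ∀ᵐ ω ∂μ, (∀ B : ℝ, ∃ n : ℕ, B < n - pathOf s n ω) →
      (∀ B : ℝ, ∃ n : ℕ, B < pathOf s n ω + n * Real.logb 6 (3 / 2)) →
      ∀ x : Conf, IsFin x → x ≠ 0 → Dense (Set.range fun n : ℕ => view (F^[n] x) (pathOf s n ω)) := by
  have h3 : ∀ᵐ ω ∂μ, ∀ x : Conf, ∀ _ : x ∈ {x : Conf | IsFin x ∧ x ≠ 0},
      ∀ (w : List (Fin 6)) (m : ℕ), (∀ B : ℝ, ∃ n : ℕ, B < n - pathOf s n ω) →
      (∀ B : ℝ, ∃ n : ℕ, B < pathOf s n ω + n * Real.logb 6 (3 / 2)) →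
      ∃ᶠ n in atTop, ShowsAt (F^[n] x) w (pathOf s n ω - m) := by
    rw [ae_ball_iff countable_fin]
    rintro x ⟨hx, hx0⟩
    rw [ae_all_iff]
    intro w
    rw [ae_all_iff]
    intro m
    exact random_word hs hc h1 h2 hK x hx hx0 w m
  filter_upwards [h3] with ω hω hp1 hp2 x hx hx0
  refine dense_of_words fun w m => ?_
  exact (hω x ⟨hx, hx0⟩ w m hp1 hp2).exists

end Pool.Agent.H590.CC
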