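import Mathlib
import Pool.Agent.H590.CC.Rand

/-!
Random moving frames with independent steps.
-/

set_option autoImplicit false

open Finset Filter Topology MeasureTheory ProbabilityTheory

namespace Pool.Agent.H590.CC

open Pool.Agent.H429R2.Auto

variable {Ω : Type*} {m0 : MeasurableSpace Ω} {μ : Measure Ω} [IsProbabilityMeasure μ]

/-- the past of a sequence -/
def past (s : ℕ → Ω → ℤ) (hm : ∀ n, Measurable (s n)) : Filtration ℕ m0 where
  seq n := ⨆ j ∈ Set.Iio n, MeasurableSpace.comap (s j) ⊤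
  mono' := fun _ _ hab => biSup_mono fun _ hi => lt_of_lt_of_le hi hab
  le' := fun _ => iSup₂_le fun j _ => (hm j).comap_le

theorem past_condExp {s : ℕ → Ω → ℤ} (hm : ∀ n, Measurable (s n)) (hind : iIndepFun s μ)
    (hid : ∀ n, IdentDistrib (s n) (s 0) μ μ) (a : ℤ) (n : ℕ) :
    ∀ᵐ ω ∂μ, μ.real {ω | s 0 ω = a} ≤
      (μ[({ω | s n ω = a}).indicator (fun _ => (1 : ℝ)) | past s hm n]) ω := by
  have hle : ∀ j, MeasurableSpace.comap (s j) ⊤ ≤ m0 := fun j => (hm j).comap_le
  have h1 : Indep (⨆ i ∈ ({n} : Set ℕ), MeasurableSpace.comap (s i) ⊤)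
      (⨆ i ∈ Set.Iio n, MeasurableSpace.comap (s i) ⊤) μ := by
    apply indep_iSup_of_disjoint hle
    · exact hind
    · rw [Set.disjoint_singleton_left]
      exact fun h => lt_irrefl n h
  rw [_root_.iSup_singleton] at h1
  have hmeas : MeasurableSet[MeasurableSpace.comap (s n) ⊤] {ω | s n ω = a} :=
    ⟨{a}, trivial, rfl⟩
  have := isFiniteMeasure_trim (μ := μ) ((past s hm).le n)
  have h2 := condExp_indep_eq (μ := μ) (m₁ := MeasurableSpace.comap (s n) ⊤)
    (m₂ := past s hm n) (hle n) ((past s hm).le n)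
    (f := ({ω | s n ω = a}).indicator (fun _ => (1 : ℝ)))
    (stronglyMeasurable_const.indicator hmeas) h1
  filter_upwards [h2] with ω hω
  have h3 : (μ[({ω | s n ω = a}).indicator (fun _ => (1 : ℝ)) | past s hm n]) ω =
      ∫ ω, ({ω | s n ω = a}).indicator (fun _ => (1 : ℝ)) ω ∂μ := hω
  rw [h3, integral_indicator (hle n _ hmeas)]
  simp only [integral_const, smul_eq_mul, mul_one, MeasurableSet.univ, measureReal_restrict_apply,
    Set.univ_inter]
  have h4 := (hid n).measure_mem_eq (s := {a}) (measurableSet_singleton a)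
  unfold Measure.real
  apply le_of_eq
  congr 1
  exact h4.symm

/-- **Independent steps.** -/
theorem iid_frames {s : ℕ → Ω → ℤ} (hm : ∀ n, Measurable (s n)) (hind : iIndepFun s μ)
    (hid : ∀ n, IdentDistrib (s n) (s 0) μ μ) {K : ℕ} (hK : ∀ n ω, |s n ω| ≤ K)
    (h1 : 0 < μ {ω | s 0 ω = 1}) (h2 : 0 < μ {ω | s 0 ω = -1})
    (h3 : -Real.logb 6 (3 / 2) < ∫ ω, (s 0 ω : ℝ) ∂μ) (h4 : ∫ ω, (s 0 ω : ℝ) ∂μ < 1) :
    ∀ᵐ ω ∂μ, ∀ x : Conf, IsFin x → x ≠ 0 →
      Dense (Set.range fun n : ℕ => view (F^[n] x) (pathOf s n ω)) := by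
  have hs : ∀ n, Measurable[past s hm (n + 1)] (s n) := by
    intro n
    have h5 : MeasurableSpace.comap (s n) ⊤ ≤ past s hm (n + 1) :=
      le_biSup (fun j => MeasurableSpace.comap (s j) ⊤) (Set.mem_Iio.2 (Nat.lt_succ_self n))
    exact measurable_iff_comap_le.2 h5
  set c : ℝ := min (μ.real {ω | s 0 ω = 1}) (μ.real {ω | s 0 ω = -1}) with hc
  have hc0 : 0 < c := by
    refine lt_min ?_ ?_
    · exact ENNReal.toReal_pos h1.ne' (measure_ne_top _ _)
    · exact ENNReal.toReal_pos h2.ne' (measure_ne_top _ _)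
  have h5 := random_frames (μ := μ) (ℱ := past s hm) hs hc0
    (fun n => by
      filter_upwards [past_condExp hm hind hid 1 n] with ω hω
      exact (min_le_left _ _).trans hω)
    (fun n => by
      filter_upwards [past_condExp hm hind hid (-1) n] with ω hω
      exact (min_le_right _ _).trans hω) hK
  -- the law of large numbers
  have hmR : ∀ n, Measurable fun ω => (s n ω : ℝ) := fun n =>
    (measurable_of_countable (fun q : ℤ => (q : ℝ))).comp (hm n)
  have h6 := strong_law_ae_real (μ := μ) (fun n ω => (s n ω : ℝ))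
    (Integrable.of_bound (hmR 0).aestronglyMeasurable (K : ℝ) (Eventually.of_forall fun ω => by
      rw [Real.norm_eq_abs]
      exact_mod_cast hK 0 ω))
    (fun i j hij => (hind.indepFun hij).comp (measurable_of_countable _) (measurable_of_countable _))
    (fun i => (hid i).comp (measurable_of_countable (fun q : ℤ => (q : ℝ))))
  filter_upwards [h5, h6] with ω h7 h8
  have h9 : ∀ n, (pathOf s n ω : ℝ) = ∑ i ∈ range n, (s i ω : ℝ) := by
    intro n
    unfold pathOf
    push_cast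
    rfl
  set E : ℝ := ∫ ω, (s 0 ω : ℝ) ∂μ with hE
  have hn : Tendsto (fun n : ℕ => (n : ℝ)) atTop atTop := tendsto_natCast_atTop_atTop
  refine h7 (fun B => ?_) (fun B => ?_)
  · have h10 : Tendsto (fun n : ℕ => (n : ℝ) * (1 - (∑ i ∈ range n, (s i ω : ℝ)) / n)) atTop atTop :=
      hn.atTop_mul_pos (by linarith : 0 < 1 - E) (h8.const_sub 1)
    obtain ⟨n, hn1, hn2⟩ := ((h10.eventually_gt_atTop B).and (eventually_ge_atTop 1)).exists
    refine ⟨n, ?_⟩
    have hn0 : (n : ℝ) ≠ 0 := by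
      have : 0 < n := by omega
      positivity
    rw [h9]
    have e : (n : ℝ) * (1 - (∑ i ∈ range n, (s i ω : ℝ)) / n) = n - ∑ i ∈ range n, (s i ω : ℝ) := by
      field_simp
    rwa [e] at hn1
  · have h10 : Tendsto (fun n : ℕ => (n : ℝ) *
        ((∑ i ∈ range n, (s i ω : ℝ)) / n + Real.logb 6 (3 / 2))) atTop atTop :=
      hn.atTop_mul_pos (by linarith : 0 < E + Real.logb 6 (3 / 2)) (h8.add_const _)
    obtain ⟨n, hn1, hn2⟩ := ((h10.eventually_gt_atTop B).and (eventually_ge_atTop 1)).exists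
    refine ⟨n, ?_⟩
    have hn0 : (n : ℝ) ≠ 0 := by
      have : 0 < n := by omega
      positivity
    rw [h9]
    have e : (n : ℝ) * ((∑ i ∈ range n, (s i ω : ℝ)) / n + Real.logb 6 (3 / 2)) =
        ∑ i ∈ range n, (s i ω : ℝ) + n * Real.logb 6 (3 / 2) := by
      field_simp
    rwa [e] at hn1

end Pool.Agent.H590.CC
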