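import Mathlib
import Pool.Agent.H590.CC.Dir

/-!
Lines through the origin of the space-time diagram: the slopes of the lines on which a word stands
only finitely often form a set of dimension less than one.
-/

set_option autoImplicit false

open Finset Filter Topology MeasureTheory
open scoped ENNReal NNReal

namespace Pool.Agent.H590.CC

open Pool.Agent.H429R2.Auto
open Pool.Agent.H706R2 (dZ)

/-- the steps of a line -/
theorem line_steps {c : ℝ} (hc : |c| ≤ 1) (n : ℕ) :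
    |⌊c * ((n + 1 : ℕ) : ℝ)⌋ - ⌊c * (n : ℝ)⌋| ≤ (1 : ℕ) := by
  have hc' := abs_le.1 hc
  have a1 := Int.floor_le (c * ((n + 1 : ℕ) : ℝ))
  have a2 := Int.lt_floor_add_one (c * ((n + 1 : ℕ) : ℝ))
  have b1 := Int.floor_le (c * (n : ℝ))
  have b2 := Int.lt_floor_add_one (c * (n : ℝ))
  push_cast at a1 a2
  have h1 : ((⌊c * ((n : ℝ) + 1)⌋ : ℝ) - ⌊c * (n : ℝ)⌋) < 2 := by nlinarith
  have h2 : (-2 : ℝ) < ((⌊c * ((n : ℝ) + 1)⌋ : ℝ) - ⌊c * (n : ℝ)⌋) := by nlinarith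
  have h1' : (⌊c * ((n : ℝ) + 1)⌋ - ⌊c * (n : ℝ)⌋) < 2 := by exact_mod_cast h1
  have h2' : (-2 : ℤ) < (⌊c * ((n : ℝ) + 1)⌋ - ⌊c * (n : ℝ)⌋) := by exact_mod_cast h2
  push_cast
  rw [abs_le]
  constructor <;> omega

/-- far cells on lines, in every interval of times `[n₀, C n₀]` -/
theorem far_line {r : ℝ} (hr0 : 0 < r) (hr : 2 * 3 ^ 1 * (6 : ℝ) ^ 1 * r ≤ 1) {δ : ℝ} (hδ : 0 < δ) :
    ∃ C : ℕ, 1 ≤ C ∧ ∀ (N : ℕ) (_ : 1 ≤ N) (β : ℝ) (_ : 0 < β), ∃ n₁ : ℕ, ∀ c : ℝ,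
      -Real.logb 6 (3 / 2) + δ ≤ c → c ≤ 1 - δ → ∀ n₀ : ℕ, n₁ ≤ n₀ →
        ∃ n : ℕ, n₀ ≤ n ∧ n ≤ C * n₀ ∧ r ≤ dZ (N * V β n ⌊c * n⌋) := by
  obtain ⟨D, hD⟩ := exists_nat_gt (8 / δ)
  refine ⟨D + 1, by omega, fun N hN β hβ => ?_⟩
  have hNR : (1 : ℝ) ≤ N := by exact_mod_cast hN
  have hl0 := log_pos
  have hl1 := log_le
  rw [div_lt_iff₀ hδ] at hD
  -- the first time
  obtain ⟨n₁, hn₁⟩ := exists_nat_ge (max ((1 + |Real.logb 6 β|) / δ)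
    (2 + |Real.logb 2 (2 * N * β)|))
  refine ⟨n₁, fun c hc1 hc2 n₀ hn₀ => ?_⟩
  have hn₀R : (n₁ : ℝ) ≤ n₀ := by exact_mod_cast hn₀
  have hc : |c| ≤ 1 := by rw [abs_le]; constructor <;> linarith
  have hx1 : (1 + |Real.logb 6 β|) / δ ≤ n₀ := (le_max_left _ _).trans (hn₁.trans hn₀R)
  have hx2 : 2 + |Real.logb 2 (2 * N * β)| ≤ n₀ := (le_max_right _ _).trans (hn₁.trans hn₀R)
  rw [div_le_iff₀ hδ] at hx1
  by_contra hcon
  push Not at hcon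
  set h : ℕ := D * n₀ with hh
  set p : ℕ → ℤ := fun n => ⌊c * n⌋ with hp
  have hp0 : p n₀ = ⌊c * n₀⌋ := rfl
  have hrun := run (d := 1) (K := 1) hr0 hr (X := fun n => N * V β n (p n)) (line_steps hc)
    (fun n => by
      have h1 := V_step β N p 0 1 n
      simp only [zero_add, one_mul] at h1
      exact h1) n₀ h (fun i hi => hcon (n₀ + i) (Nat.le_add_right _ _) (by
        have : (D + 1) * n₀ = n₀ + D * n₀ := by ring
        omega))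
  have a1 := Int.floor_le (c * (n₀ : ℝ))
  have a2 := Int.lt_floor_add_one (c * (n₀ : ℝ))
  have b1 := Int.floor_le (c * ((n₀ + h : ℕ) : ℝ))
  have hn0R : (0 : ℝ) ≤ n₀ := Nat.cast_nonneg _
  -- the value at the time `n₀`
  have hV1 : 1 ≤ V β n₀ (p n₀) := by
    rw [V_eq, hp0]
    have h1 : -Real.logb 6 β ≤ (⌊c * (n₀ : ℝ)⌋ : ℝ) + n₀ * Real.logb 6 (3 / 2) := by
      have h2 : -Real.logb 6 β ≤ |Real.logb 6 β| := neg_le_abs _
      nlinarith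
    calc (1 : ℝ) = β * (6 : ℝ) ^ (-Real.logb 6 β) := by
          rw [Real.rpow_neg (by norm_num), Real.rpow_logb (by norm_num) (by norm_num) hβ,
            mul_inv_cancel₀ hβ.ne']
      _ ≤ _ := by
          apply mul_le_mul_of_nonneg_left _ hβ.le
          exact Real.rpow_le_rpow_of_exponent_le (by norm_num) h1
  have hNV : 1 ≤ (N : ℝ) * V β n₀ (p n₀) := by nlinarith
  have hround : 1 ≤ round ((N : ℝ) * V β n₀ (p n₀)) := by
    rw [round_eq]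
    exact Int.le_floor.2 (by push_cast; linarith)
  have hrun2 := hrun.2 (by omega)
  -- the valuation
  set v : ℕ := padicValInt 2 (round ((N : ℝ) * V β n₀ (p n₀))) with hv
  have hv1 : (2 : ℝ) ^ v ≤ 2 * N * β * 6 ^ (2 * n₀) := by
    have h1 : ((2 : ℕ) : ℤ) ^ v ∣ round ((N : ℝ) * V β n₀ (p n₀)) := padicValInt_dvd _
    have h2 := Int.le_of_dvd (by omega) h1
    have h3 : (2 : ℝ) ^ v ≤ (round ((N : ℝ) * V β n₀ (p n₀)) : ℝ) := by exact_mod_cast h2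
    have h4 : (round ((N : ℝ) * V β n₀ (p n₀)) : ℝ) ≤ N * V β n₀ (p n₀) + 1 / 2 := by
      have := abs_le.1 (abs_sub_round ((N : ℝ) * V β n₀ (p n₀)))
      linarith [this.1]
    have h5 : V β n₀ (p n₀) ≤ β * 6 ^ (2 * n₀) := by
      rw [V_eq, hp0]
      apply mul_le_mul_of_nonneg_left _ hβ.le
      rw [← Real.rpow_natCast]
      apply Real.rpow_le_rpow_of_exponent_le (by norm_num)
      push_cast
      nlinarith
    have h6 : (N : ℝ) * V β n₀ (p n₀) ≤ N * (β * 6 ^ (2 * n₀)) :=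
      mul_le_mul_of_nonneg_left h5 (by linarith)
    calc (2 : ℝ) ^ v ≤ N * V β n₀ (p n₀) + 1 / 2 := h3.trans h4
      _ ≤ 2 * (N * V β n₀ (p n₀)) := by linarith
      _ ≤ 2 * (N * (β * 6 ^ (2 * n₀))) := by linarith
      _ = 2 * N * β * 6 ^ (2 * n₀) := by ring
  have hv2 : (v : ℝ) ≤ |Real.logb 2 (2 * N * β)| + 6 * n₀ := by
    have h1 : (v : ℝ) = Real.logb 2 (2 ^ v) := by
      rw [Real.logb_pow, Real.logb_self_eq_one (by norm_num), mul_one]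
    rw [h1]
    have h2 := Real.logb_le_logb_of_le (b := 2) (by norm_num) (by positivity) hv1
    refine h2.trans ?_
    rw [Real.logb_mul (by positivity) (by positivity), Real.logb_pow]
    have h3 : Real.logb 2 6 ≤ 3 := by
      rw [Real.logb_le_iff_le_rpow (by norm_num) (by norm_num)]
      norm_num
    have h4 : Real.logb 2 (2 * N * β) ≤ |Real.logb 2 (2 * N * β)| := le_abs_self _
    push_cast
    nlinarith
  -- the contradiction
  have h3 : (0 : ℤ) ≤ (padicValInt 2 (round ((N : ℝ) * V β (n₀ + h) (p (n₀ + h)))) : ℤ) :=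
    Int.natCast_nonneg _
  rw [hrun2] at h3
  have h4 : (0 : ℝ) ≤ (v : ℝ) + ((p (n₀ + h) : ℝ) - p n₀) - ((1 : ℕ) : ℝ) * h := by
    exact_mod_cast h3
  have h5 : (p (n₀ + h) : ℝ) ≤ c * ((n₀ + h : ℕ) : ℝ) := b1
  have h6 : (c * (n₀ : ℝ)) - 1 < (p n₀ : ℝ) := by
    rw [hp0]
    linarith
  have h7 : (h : ℝ) = D * n₀ := by rw [hh]; push_cast; ring
  push_cast at h4 h5
  have h8 : δ * h ≤ v + 1 := by
    have h9 : (h : ℝ) - c * h ≤ v + 1 := by nlinarith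
    have h10 : δ * h ≤ (1 - c) * h := by
      apply mul_le_mul_of_nonneg_right _ (Nat.cast_nonneg h)
      linarith
    linarith
  rw [h7] at h8
  have h9 : 8 * (n₀ : ℝ) ≤ δ * (D * n₀) := by nlinarith
  have h10 : (2 : ℝ) ≤ n₀ := by
    have := abs_nonneg (Real.logb 2 (2 * N * β))
    linarith
  linarith

/-- **Lines.** -/
theorem lines (w : List (Fin 6)) {δ : ℝ} (hδ : 0 < δ) : ∃ D : ℝ≥0, D < 1 ∧
    ∀ x : Conf, IsFin x → x ≠ 0 →
      dimH {c : ℝ | -Real.logb 6 (3 / 2) + δ ≤ c ∧ c ≤ 1 - δ ∧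
        ¬ ∃ᶠ n : ℕ in atTop, ShowsAt (F^[n] x) w ⌊c * n⌋} ≤ D := by
  set r : ℝ := 1 / 36 with hrdef
  have hr0 : 0 < r := by positivity
  have hr : 2 * 3 ^ 1 * (6 : ℝ) ^ 1 * r ≤ 1 := by rw [hrdef]; norm_num
  obtain ⟨N, hN, T, hT, hhit⟩ := hit w (d := 1) le_rfl hr0
  obtain ⟨C, hC, hfar⟩ := far_line hr0 hr hδ
  set A₁ : ℝ := 3 * T + 4 with hA₁
  have hTR : (1 : ℝ) ≤ T := by exact_mod_cast hT
  have hCR : (1 : ℝ) ≤ C := by exact_mod_cast hC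
  have hA₁0 : 1 ≤ A₁ := by rw [hA₁]; linarith
  set A : ℝ := 2 * (C + 2 * T) * A₁ with hA
  have hA1 : 1 ≤ A := by rw [hA]; nlinarith
  obtain ⟨D, hD, hdim⟩ := dimH_of_holes hA1
  refine ⟨D, hD, fun x hx hx0 => ?_⟩
  obtain ⟨m, k, hrep, hm, -⟩ := exists_rep hx
  have hm := hm hx0
  have hβ : (0 : ℝ) < (m : ℝ) / 6 ^ k := by positivity
  obtain ⟨n₁, hn₁⟩ := hfar N hN _ hβ
  have hl1 := log_le
  have hcover : {c : ℝ | -Real.logb 6 (3 / 2) + δ ≤ c ∧ c ≤ 1 - δ ∧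
        ¬ ∃ᶠ n : ℕ in atTop, ShowsAt (F^[n] x) w ⌊c * n⌋} ⊆
      ⋃ M : ℕ, {c : ℝ | -Real.logb 6 (3 / 2) + δ ≤ c ∧ c ≤ 1 - δ ∧
        ∀ n : ℕ, M ≤ n → ¬ ShowsAt (F^[n] x) w ⌊c * n⌋} := by
    rintro c ⟨hc1, hc2, hc3⟩
    rw [not_frequently, eventually_atTop] at hc3
    obtain ⟨M, hM⟩ := hc3
    exact Set.mem_iUnion.2 ⟨M, hc1, hc2, hM⟩
  refine (dimH_mono hcover).trans ?_
  rw [dimH_iUnion]
  refine iSup_le fun M => ?_
  set L : ℝ := max (max n₁ M) 1 with hL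
  have hL1 : 1 ≤ L := le_max_right _ _
  refine hdim _ (min 1 (A₁ / L)) (by positivity) ?_
  rintro c ⟨hc1, hc2, hc3⟩ ρ hρ hρ₀
  have hρ1 : ρ ≤ 1 := hρ₀.trans (min_le_left _ _)
  have hρ2 : L ≤ A₁ / ρ := by
    have h1 := hρ₀.trans (min_le_right _ _)
    rw [le_div_iff₀ (by linarith)] at h1
    rw [le_div_iff₀ hρ]
    linarith
  set n₀ : ℕ := ⌈A₁ / ρ⌉₊ with hn₀
  have h1 : A₁ / ρ ≤ n₀ := Nat.le_ceil _
  have h2 : (n₀ : ℝ) < A₁ / ρ + 1 := Nat.ceil_lt_add_one (by positivity)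
  have hn₀1 : n₁ ≤ n₀ := by
    have : (n₁ : ℝ) ≤ n₀ := (((le_max_left _ _).trans (le_max_left _ _)).trans hρ2).trans h1
    exact_mod_cast this
  have hn₀M : M ≤ n₀ := by
    have : (M : ℝ) ≤ n₀ := (((le_max_right _ _).trans (le_max_left _ _)).trans hρ2).trans h1
    exact_mod_cast this
  have hn₀0 : (1 : ℝ) ≤ n₀ := (hL1.trans hρ2).trans h1
  obtain ⟨n, hn1, hn2, hnfar⟩ := hn₁ c hc1 hc2 n₀ hn₀1
  obtain ⟨t, k', ht, hk', hs⟩ := hhit x _ hβ.le hrep n ⌊c * n⌋ hnfar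
  rw [one_mul, one_mul] at hs
  set n' : ℕ := n + k' + t with hn'
  set j : ℤ := ⌊c * n⌋ + ((1 : ℕ) : ℤ) * k' - ((1 : ℕ) : ℤ) * t + 2 with hj
  have hn'0 : (n₀ : ℝ) ≤ n' := by
    have : n₀ ≤ n' := by omega
    exact_mod_cast this
  have hn'pos : (0 : ℝ) < n' := by linarith
  have hn'C : (n' : ℝ) ≤ (C + 2 * T) * n₀ := by
    have h3 : n' ≤ C * n₀ + 2 * T := by omega
    have h4 : (n' : ℝ) ≤ C * n₀ + 2 * T := by exact_mod_cast h3
    have h5 : (2 : ℝ) * T ≤ 2 * T * n₀ := by nlinarith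
    linarith
  have hn'len : ρ / A ≤ 1 / n' := by
    rw [div_le_div_iff₀ (by positivity) hn'pos, one_mul, hA]
    have h3 : (n₀ : ℝ) ≤ 2 * A₁ / ρ := by
      have h4 : (1 : ℝ) ≤ A₁ / ρ := by
        rw [le_div_iff₀ hρ]
        linarith
      have e : 2 * A₁ / ρ = A₁ / ρ + A₁ / ρ := by ring
      rw [e]
      linarith
    have h4 : (n' : ℝ) ≤ (C + 2 * T) * (2 * A₁ / ρ) :=
      hn'C.trans (mul_le_mul_of_nonneg_left h3 (by positivity))
    calc ρ * n' ≤ ρ * ((C + 2 * T) * (2 * A₁ / ρ)) := mul_le_mul_of_nonneg_left h4 hρ.le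
      _ = 2 * (C + 2 * T) * A₁ := by field_simp
  have hρn : A₁ / n' ≤ ρ := by
    rw [div_le_iff₀ hn'pos]
    rw [div_le_iff₀ hρ] at h1
    nlinarith
  -- the distance of the cell from the line
  have hcabs : |c| ≤ 1 := by rw [abs_le]; constructor <;> linarith [log_pos]
  have hc' := abs_le.1 hcabs
  have b1 := Int.floor_le (c * (n : ℝ))
  have b2 := Int.lt_floor_add_one (c * (n : ℝ))
  have htR : (t : ℝ) ≤ T := by exact_mod_cast ht
  have hkR : (k' : ℝ) ≤ T := by exact_mod_cast hk'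
  have ht0 : (0 : ℝ) ≤ t := Nat.cast_nonneg _
  have hk0 : (0 : ℝ) ≤ k' := Nat.cast_nonneg _
  have hjR : (j : ℝ) = ⌊c * (n : ℝ)⌋ + k' - t + 2 := by rw [hj]; push_cast; ring
  have hn'R : (n' : ℝ) = n + k' + t := by rw [hn']; push_cast; ring
  have hd1 : (j : ℝ) - c * n' ≤ 3 * T + 3 := by
    rw [hjR, hn'R]
    nlinarith
  have hd2 : -(3 * T + 3 : ℝ) ≤ (j : ℝ) - c * n' := by
    rw [hjR, hn'R]
    nlinarith
  refine ⟨(j : ℝ) / n', ?_, ?_, ?_⟩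
  · have h3 : c - A₁ / n' ≤ (j : ℝ) / n' := by
      rw [sub_le_iff_le_add, ← add_div, le_div_iff₀ hn'pos]
      linarith
    linarith
  · have h3 : (j : ℝ) / n' + 1 / n' ≤ c + A₁ / n' := by
      rw [← add_div, div_le_iff₀ hn'pos, add_mul, div_mul_cancel₀ _ hn'pos.ne']
      linarith
    linarith
  · rintro y hy1 hy2 ⟨-, -, hy3⟩
    have hy4 : y < (j : ℝ) / n' + 1 / n' := by linarith
    rw [← add_div, lt_div_iff₀ hn'pos] at hy4
    rw [div_le_iff₀ hn'pos] at hy1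
    have h3 : ⌊y * (n' : ℝ)⌋ = j := by
      rw [Int.floor_eq_iff]
      constructor <;> linarith
    refine hy3 n' (by omega) ?_
    rw [h3]
    exact hs

end Pool.Agent.H590.CC
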